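import Mathlib

/-!
Definitions for the loop O(n) model on vertex subsets of the hexagonal torus.
-/

namespace Pool.Agent.Lib.MP_4960b8_pr

open Classical

/-- Vertices of the hexagonal lattice with coordinates in `R`: `R = ℤ` is the plane lattice,
`R = ZMod L` is the `L × L` torus (`2 L^2` vertices). The Boolean is the sublattice. -/
abbrev V (R : Type) := R × R × Bool

/-- The three neighbours of a vertex, indexed by the type `e` of the edge:
`(i, j, false)` is joined to `(i, j, true)`, `(i - 1, j, true)` and `(i, j - 1, true)`. -/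
def nb {R : Type} [Ring R] (v : V R) (e : ZMod 3) : V R :=
  if v.2.2 = false then
    (if e = 0 then (v.1, v.2.1, true) else if e = 1 then (v.1 - 1, v.2.1, true)
      else (v.1, v.2.1 - 1, true))
  else
    (if e = 0 then (v.1, v.2.1, false) else if e = 1 then (v.1 + 1, v.2.1, false)
      else (v.1, v.2.1 + 1, false))

theorem nb_nb {R : Type} [Ring R] (v : V R) (e : ZMod 3) : nb (nb v e) e = v := by
  obtain ⟨i, j, b⟩ := v
  cases b <;> by_cases h0 : e = 0 <;> by_cases h1 : e = 1 <;> simp [nb, h0, h1]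

theorem nb_ne {R : Type} [Ring R] (v : V R) (e : ZMod 3) : nb v e ≠ v := by
  obtain ⟨i, j, b⟩ := v
  cases b <;> by_cases h0 : e = 0 <;> by_cases h1 : e = 1 <;> simp [nb, h0, h1]

/-- The hexagonal lattice (plane for `R = ℤ`, torus for `R = ZMod L`) as a simple graph. -/
def hex (R : Type) [Ring R] : SimpleGraph (V R) where
  Adj u v := ∃ e, v = nb u e
  symm := ⟨fun u v ⟨e, h⟩ => ⟨e, by rw [h, nb_nb]⟩⟩
  loopless := ⟨fun u ⟨e, h⟩ => nb_ne u e h.symm⟩

/-- `f` goes once every `m` steps around a cycle of length `m ≥ 3` whose edge set is `c`. -/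
def Param {R : Type} [Ring R] (m : ℕ) (f : ℤ → V R) (c : Finset (Sym2 (V R))) : Prop :=
  3 ≤ m ∧ (∀ t, (hex R).Adj (f t) (f (t + 1))) ∧ (∀ s t, f s = f t ↔ (m : ℤ) ∣ s - t) ∧
    ∀ z, z ∈ c ↔ ∃ t, z = s(f t, f (t + 1))

/-- A loop: the edge set of a (simple) cycle of the graph. -/
def IsLoop {R : Type} [Ring R] (c : Finset (Sym2 (V R))) : Prop := ∃ m f, Param m f c

/-- The vertex `v` lies on `c`. -/
def On {R : Type} (v : V R) (c : Finset (Sym2 (V R))) : Prop := ∃ z ∈ c, v ∈ z

/-- A loop configuration in the vertex set `U`: pairwise vertex-disjoint loops inside `U`. -/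
def Config {R : Type} [Ring R] (U : Finset (V R)) (S : Finset (Finset (Sym2 (V R)))) : Prop :=
  (∀ c ∈ S, IsLoop c ∧ ∀ v, On v c → v ∈ U) ∧
    ∀ c ∈ S, ∀ c' ∈ S, c ≠ c' → ∀ v, ¬ (On v c ∧ On v c')

/-- The weight `x ^ (number of edges) * n ^ (number of loops)`. -/
def weight {R : Type} (n x : ℝ) (S : Finset (Finset (Sym2 (V R)))) : ℝ :=
  x ^ (∑ c ∈ S, c.card) * n ^ S.card

/-- Probability of the event `E` under the loop O(n) measure with edge weight `x` on the
subgraph of the `L × L` hexagonal torus induced on `U`. -/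
noncomputable def prob (L : ℕ) [NeZero L] (n x : ℝ) (U : Finset (V (ZMod L)))
    (E : Finset (Finset (Sym2 (V (ZMod L)))) → Prop) : ℝ :=
  (∑ S with Config U S ∧ E S, weight n x S) / (∑ S with Config U S, weight n x S)

/-- Expectation of `g` under the loop O(n) measure with edge weight `x` on the whole torus. -/
noncomputable def expect (L : ℕ) [NeZero L] (n x : ℝ)
    (g : Finset (Finset (Sym2 (V (ZMod L)))) → ℝ) : ℝ :=
  (∑ S with Config Finset.univ S, g S * weight n x S) /
    (∑ S : Finset (Finset (Sym2 (V (ZMod L)))) with Config Finset.univ S, weight n x S)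

/-- The vertices of the torus that lie on no loop of `S`. -/
noncomputable def freeOf (L : ℕ) [NeZero L] (S : Finset (Finset (Sym2 (V (ZMod L))))) :
    Finset (V (ZMod L)) :=
  Finset.univ.filter fun v => ∀ c ∈ S, ¬ On v c

/-- Covering map from the plane lattice to the torus. -/
def proj (L : ℕ) (v : V ℤ) : V (ZMod L) := ((v.1 : ZMod L), (v.2.1 : ZMod L), v.2.2)

/-- Position of a plane vertex in `ℂ` (regular hexagons of side 2). -/
noncomputable def pos (v : V ℤ) : ℂ :=
  ((3 * (v.1 + v.2.1) + (if v.2.2 = true then 2 else 0) : ℤ) : ℂ) +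
    ((v.2.1 - v.1 : ℤ) : ℂ) * (Real.sqrt 3 : ℂ) * Complex.I

/-- The base vertex. -/
def org : V ℤ := (0, 0, false)

/-- `F` is a path of the plane lattice lifting a parametrisation of the torus loop `c`. -/
def Lift (L : ℕ) (m : ℕ) (F : ℤ → V ℤ) (c : Finset (Sym2 (V (ZMod L)))) : Prop :=
  (∀ t, (hex ℤ).Adj (F t) (F (t + 1))) ∧ Param m (fun t => proj L (F t)) c

/-- Non-contractible loop of the torus: a lift to the plane does not close up. -/
def NonContr (L : ℕ) (c : Finset (Sym2 (V (ZMod L)))) : Prop :=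
  ∃ m F, Lift L m F c ∧ F m ≠ F 0

/-- Total variation of the argument of `pos (F t) - p` along the steps `s, …, s + k`. -/
noncomputable def var (p : ℂ) (F : ℤ → V ℤ) (s : ℤ) (k : ℕ) : ℝ :=
  ∑ t ∈ Finset.range k, Complex.arg ((pos (F (s + t + 1)) - p) / (pos (F (s + t)) - p))

/-- The loop surrounds the base vertex: some lift to the plane closes up, avoids the base vertex
and has non-zero winding number around it. -/
def Surrounds (L : ℕ) (c : Finset (Sym2 (V (ZMod L)))) : Prop :=
  ∃ m F, Lift L m F c ∧ F m = F 0 ∧ (∀ t, F t ≠ org) ∧ var (pos org) F 0 m ≠ 0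

/-- Nienhuis' critical point. -/
noncomputable def xc (n : ℝ) : ℝ := (Real.sqrt (2 + Real.sqrt (2 - n)))⁻¹

end Pool.Agent.Lib.MP_4960b8_pr
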