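import Mathlib

/-! Hard-core polymer gases: marking identity and simple inequalities. -/

namespace Pool.Agent.Lib.MP_4960b8_pr

open Finset Classical

set_option linter.unusedSectionVars false

variable {P X : Type} [Fintype P] [DecidableEq P] [DecidableEq X] (ok : P → Prop)
  (supp : P → Finset X)

def Cfg (U : Finset X) (S : Finset P) : Prop :=
  (∀ c ∈ S, ok c ∧ supp c ⊆ U) ∧ ∀ c ∈ S, ∀ c' ∈ S, c ≠ c' → Disjoint (supp c) (supp c')

/-- sum of `g` over the configurations in `U` -/
noncomputable def SS (U : Finset X) (g : Finset P → ℝ) : ℝ := ∑ S with Cfg ok supp U S, g S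

/-- sum of `g` over the polymers in `U` with property `Q` -/
noncomputable def PP (U : Finset X) (Q : P → Prop) (g : P → ℝ) : ℝ :=
  ∑ c with ok c ∧ supp c ⊆ U ∧ Q c, g c

variable {ok supp}

theorem SS_le {U : Finset X} {g h : Finset P → ℝ} (H : ∀ S, Cfg ok supp U S → g S ≤ h S) :
    SS ok supp U g ≤ SS ok supp U h :=
  sum_le_sum fun S hS => H S (mem_filter.1 hS).2

theorem SS_congr {U : Finset X} {g h : Finset P → ℝ} (H : ∀ S, Cfg ok supp U S → g S = h S) :
    SS ok supp U g = SS ok supp U h :=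
  sum_congr rfl fun S hS => H S (mem_filter.1 hS).2

theorem SS_add (U : Finset X) (g h : Finset P → ℝ) :
    SS ok supp U (fun S => g S + h S) = SS ok supp U g + SS ok supp U h := sum_add_distrib

theorem SS_sub (U : Finset X) (g h : Finset P → ℝ) :
    SS ok supp U (fun S => g S - h S) = SS ok supp U g - SS ok supp U h := sum_sub_distrib _ _

theorem SS_mul (U : Finset X) (a : ℝ) (g : Finset P → ℝ) :
    SS ok supp U (fun S => a * g S) = a * SS ok supp U g := (mul_sum _ _ _).symm

theorem SS_nonneg {U : Finset X} {g : Finset P → ℝ} (H : ∀ S, 0 ≤ g S) : 0 ≤ SS ok supp U g :=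
  sum_nonneg fun S _ => H S

theorem PP_le {U : Finset X} {Q : P → Prop} {g h : P → ℝ}
    (H : ∀ c, ok c → supp c ⊆ U → Q c → g c ≤ h c) : PP ok supp U Q g ≤ PP ok supp U Q h :=
  sum_le_sum fun c hc => H c (mem_filter.1 hc).2.1 (mem_filter.1 hc).2.2.1 (mem_filter.1 hc).2.2.2

theorem PP_congr {U : Finset X} {Q : P → Prop} {g h : P → ℝ}
    (H : ∀ c, ok c → supp c ⊆ U → Q c → g c = h c) : PP ok supp U Q g = PP ok supp U Q h :=
  sum_congr rfl fun c hc =>
    H c (mem_filter.1 hc).2.1 (mem_filter.1 hc).2.2.1 (mem_filter.1 hc).2.2.2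

theorem PP_mul (U : Finset X) (Q : P → Prop) (a : ℝ) (g : P → ℝ) :
    PP ok supp U Q (fun c => a * g c) = a * PP ok supp U Q g := (mul_sum _ _ _).symm

theorem PP_nonneg {U : Finset X} {Q : P → Prop} {g : P → ℝ} (H : ∀ c, 0 ≤ g c) :
    0 ≤ PP ok supp U Q g := sum_nonneg fun c _ => H c

theorem PP_ite (U : Finset X) (Q : P → Prop) (g : P → ℝ) :
    PP ok supp U Q g = PP ok supp U (fun _ => True) (fun c => if Q c then g c else 0) := by
  unfold PP
  rw [sum_filter, sum_filter]
  apply sum_congr rfl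
  intro c _
  by_cases h1 : ok c <;> by_cases h2 : supp c ⊆ U <;> by_cases h3 : Q c <;> simp [h1, h2, h3]

theorem PP_mono {U : Finset X} {Q Q' : P → Prop} {g : P → ℝ} (H : ∀ c, 0 ≤ g c)
    (hQ : ∀ c, ok c → supp c ⊆ U → Q c → Q' c) : PP ok supp U Q g ≤ PP ok supp U Q' g := by
  apply sum_le_sum_of_subset_of_nonneg
  · intro c hc
    simp only [mem_filter, mem_univ, true_and] at *
    exact ⟨hc.1, hc.2.1, hQ c hc.1 hc.2.1 hc.2.2⟩
  · intro c _ _; exact H c

theorem PP_union {ι : Type} (I : Finset ι) {U : Finset X} {Q : P → Prop} {Q' : ι → P → Prop}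
    {g : P → ℝ} (H : ∀ c, 0 ≤ g c)
    (hQ : ∀ c, ok c → supp c ⊆ U → Q c → ∃ i ∈ I, Q' i c) :
    PP ok supp U Q g ≤ ∑ i ∈ I, PP ok supp U (Q' i) g := by
  simp only [PP_ite U Q, PP_ite U (Q' _)]
  unfold PP
  rw [sum_comm]
  apply sum_le_sum
  intro c hc
  simp only [mem_filter, mem_univ, true_and, and_true] at hc
  have nn : ∀ i ∈ I, 0 ≤ (if Q' i c then g c else 0) := fun i _ => by
    split_ifs; exacts [H c, le_rfl]
  split_ifs with h
  · obtain ⟨i, hi, h2⟩ := hQ c hc.1 hc.2 h
    have := single_le_sum nn hi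
    simpa [h2] using this
  · exact sum_nonneg nn

theorem cfg_empty (U : Finset X) : Cfg ok supp U ∅ := by simp [Cfg]

theorem mark (hne : ∀ c, ok c → (supp c).Nonempty) (U : Finset X) (Q : P → Prop)
    (g : P → Finset P → ℝ) :
    SS ok supp U (fun S => ∑ c ∈ S with Q c, g c (S.erase c)) =
      PP ok supp U Q (fun c => SS ok supp (U \ supp c) (g c)) := by
  unfold SS PP
  rw [sum_comm' (t' := univ.filter fun c => ok c ∧ supp c ⊆ U ∧ Q c)
    (s' := fun c => univ.filter fun S => Cfg ok supp U S ∧ c ∈ S)]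
  · apply sum_congr rfl
    intro c hc
    simp only [mem_filter, mem_univ, true_and] at hc
    apply sum_nbij' (fun S => S.erase c) (fun S => insert c S)
    · intro S hS
      simp only [mem_filter, mem_univ, true_and] at *
      refine ⟨fun c' hc' => ?_, fun a ha b hb hab =>
        hS.1.2 a (mem_of_mem_erase ha) b (mem_of_mem_erase hb) hab⟩
      have h1 := hS.1.1 c' (mem_of_mem_erase hc')
      have h2 := hS.1.2 c' (mem_of_mem_erase hc') c hS.2 (ne_of_mem_erase hc')
      exact ⟨h1.1, subset_sdiff.2 ⟨h1.2, h2⟩⟩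
    · intro S hS
      simp only [mem_filter, mem_univ, true_and] at *
      refine ⟨⟨fun c' hc' => ?_, fun a ha b hb hab => ?_⟩, mem_insert_self _ _⟩
      · rcases mem_insert.1 hc' with rfl | h
        · exact ⟨hc.1, hc.2.1⟩
        · exact ⟨(hS.1 c' h).1, (hS.1 c' h).2.trans sdiff_subset⟩
      · rcases mem_insert.1 ha with rfl | ha' <;> rcases mem_insert.1 hb with rfl | hb'
        · exact absurd rfl hab
        · exact (subset_sdiff.1 (hS.1 b hb').2).2.symm
        · exact (subset_sdiff.1 (hS.1 a ha').2).2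
        · exact hS.2 a ha' b hb' hab
    · intro S hS
      simp only [mem_filter, mem_univ, true_and] at *
      exact insert_erase hS.2
    · intro S hS
      simp only [mem_filter, mem_univ, true_and] at *
      apply erase_insert
      intro h
      obtain ⟨v, hv⟩ := hne c hc.1
      have := (hS.1 c h).2 hv
      simp [hv] at this
    · intro S _; rfl
  · intro S c
    simp only [mem_filter, mem_univ, true_and]
    constructor
    · rintro ⟨h1, h2, h3⟩
      exact ⟨⟨h1, h2⟩, (h1.1 c h2).1, (h1.1 c h2).2, h3⟩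
    · rintro ⟨⟨h1, h2⟩, -, -, h3⟩
      exact ⟨h1, h2, h3⟩

variable (ok supp) in
/-- partition function with polymer activities `w` -/
noncomputable def ZZ (w : P → ℝ) (U : Finset X) : ℝ := SS ok supp U (fun S => ∏ c ∈ S, w c)

variable (ok supp) in
/-- unnormalised expected number of polymers with property `Q` -/
noncomputable def NN (w : P → ℝ) (Q : P → Prop) (U : Finset X) : ℝ :=
  PP ok supp U Q (fun c => w c * ZZ ok supp w (U \ supp c))

theorem mark_count (hne : ∀ c, ok c → (supp c).Nonempty) (U : Finset X) (Q : P → Prop)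
    (w : P → ℝ) :
    SS ok supp U (fun S => ((S.filter Q).card : ℝ) * ∏ c ∈ S, w c) = NN ok supp w Q U := by
  have := mark hne U Q (fun c S => w c * ∏ c ∈ S, w c)
  unfold NN ZZ
  simp only [SS_mul] at this
  rw [← this]
  apply SS_congr
  intro S _
  rw [card_eq_sum_ones]
  push_cast
  rw [sum_mul]
  apply sum_congr rfl
  intro c hc
  rw [one_mul, mul_prod_erase _ _ (mem_filter.1 hc).1]

theorem card_at_le_one {U : Finset X} {S : Finset P} (hS : Cfg ok supp U S) (u : X)
    (Q : P → Prop) (hQ : ∀ c, Q c → u ∈ supp c) : (S.filter Q).card ≤ 1 := by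
  rw [card_le_one]
  intro a ha b hb
  by_contra hab
  have := hS.2 a (mem_filter.1 ha).1 b (mem_filter.1 hb).1 hab
  exact disjoint_left.1 this (hQ a (mem_filter.1 ha).2) (hQ b (mem_filter.1 hb).2)

/-- for properties forcing a fixed vertex, the count is an indicator -/
theorem NN_at (hne : ∀ c, ok c → (supp c).Nonempty) (U : Finset X) (u : X) (Q : P → Prop)
    (hQ : ∀ c, Q c → u ∈ supp c) (w : P → ℝ) :
    NN ok supp w Q U = SS ok supp U (fun S => if ∃ c ∈ S, Q c then ∏ c ∈ S, w c else 0) := by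
  rw [← mark_count hne]
  apply SS_congr
  intro S hS
  have h1 := card_at_le_one hS u Q hQ
  split_ifs with h
  · have : 0 < (S.filter Q).card := by
      obtain ⟨c, h1, h2⟩ := h
      exact card_pos.2 ⟨c, mem_filter.2 ⟨h1, h2⟩⟩
    have : (S.filter Q).card = 1 := by omega
    rw [this]; simp
  · have : (S.filter Q).card = 0 := by
      rw [card_eq_zero, filter_eq_empty_iff]
      intro c h1 h2; exact h ⟨c, h1, h2⟩
    rw [this]; simp

theorem ZZ_vertex (hne : ∀ c, ok c → (supp c).Nonempty) (U : Finset X) (u : X) (w : P → ℝ) :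
    ZZ ok supp w U = ZZ ok supp w (U.erase u) + NN ok supp w (fun c => u ∈ supp c) U := by
  rw [NN_at hne U u _ (fun _ h => h)]
  have : ZZ ok supp w (U.erase u) =
      SS ok supp U (fun S => if ∃ c ∈ S, u ∈ supp c then 0 else ∏ c ∈ S, w c) := by
    unfold ZZ SS
    rw [sum_filter, sum_filter]
    apply sum_congr rfl
    intro S _
    have : Cfg ok supp (U.erase u) S ↔ Cfg ok supp U S ∧ ¬ ∃ c ∈ S, u ∈ supp c := by
      unfold Cfg
      simp only [subset_erase]
      constructor
      · rintro ⟨h1, h2⟩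
        exact ⟨⟨fun c hc => ⟨(h1 c hc).1, (h1 c hc).2.1⟩, h2⟩,
          fun ⟨c, hc, hu⟩ => (h1 c hc).2.2 hu⟩
      · rintro ⟨⟨h1, h2⟩, h3⟩
        exact ⟨fun c hc => ⟨(h1 c hc).1, (h1 c hc).2, fun hu => h3 ⟨c, hc, hu⟩⟩, h2⟩
    rw [this]
    by_cases h1 : Cfg ok supp U S <;> by_cases h2 : ∃ c ∈ S, u ∈ supp c <;> simp [h1, h2]
  rw [this, ← SS_add]
  apply SS_congr
  intro S _
  split_ifs <;> simp

theorem ZZ_pos {w : P → ℝ} (hw : ∀ c, 0 ≤ w c) (U : Finset X) : 0 < ZZ ok supp w U := by
  unfold ZZ SS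
  have := single_le_sum (s := univ.filter (Cfg ok supp U)) (f := fun S => ∏ c ∈ S, w c)
    (fun S _ => prod_nonneg fun c _ => hw c) (mem_filter.2 ⟨mem_univ ∅, cfg_empty U⟩)
  simp only [prod_empty] at this
  linarith

theorem NN_nonneg {w : P → ℝ} (hw : ∀ c, 0 ≤ w c) (Q : P → Prop) (U : Finset X) :
    0 ≤ NN ok supp w Q U :=
  PP_nonneg fun c => mul_nonneg (hw c) (ZZ_pos hw _).le

theorem card_sdiff_lt {U s : Finset X} (h1 : s ⊆ U) (h2 : s.Nonempty) : (U \ s).card < U.card := by
  apply card_lt_card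
  refine ⟨sdiff_subset, fun h => ?_⟩
  obtain ⟨v, hv⟩ := h2
  have := h (h1 hv)
  simp [hv] at this

/-- tilting a class of polymers that is uniformly rare at most doubles the partition function -/
theorem tilt (hne : ∀ c, ok c → (supp c).Nonempty) {w : P → ℝ} (hw : ∀ c, 0 ≤ w c)
    (Q : P → Prop) {lam : ℝ} (hl : 1 ≤ lam) {D : Finset X → Prop}
    (hD : ∀ U c, D U → ok c → supp c ⊆ U → D (U \ supp c))
    (H : ∀ U, D U → 2 * lam * NN ok supp w Q U ≤ ZZ ok supp w U) (U : Finset X) (hDU : D U) :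
    ZZ ok supp (fun c => if Q c then lam * w c else w c) U ≤ 2 * ZZ ok supp w U := by
  induction hU : U.card using Nat.strong_induction_on generalizing U with
  | _ k ih =>
  set w' : P → ℝ := fun c => if Q c then lam * w c else w c with hw'
  have hw'0 : ∀ c, 0 ≤ w' c := fun c => by
    simp only [hw']; split_ifs; exacts [mul_nonneg (by linarith) (hw c), hw c]
  have h1 : ZZ ok supp w' U ≤ ZZ ok supp w U + NN ok supp w' Q U := by
    rw [← mark_count hne]
    unfold ZZ
    rw [← SS_add]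
    apply SS_le
    intro S _
    have p0 : 0 ≤ ∏ c ∈ S, w c := prod_nonneg fun c _ => hw c
    have p1 : 0 ≤ ∏ c ∈ S, w' c := prod_nonneg fun c _ => hw'0 c
    rcases Nat.eq_zero_or_pos (S.filter Q).card with h | h
    · have : ∏ c ∈ S, w' c = ∏ c ∈ S, w c := by
        apply prod_congr rfl
        intro c hc
        rw [card_eq_zero, filter_eq_empty_iff] at h
        simp [hw', h hc]
      rw [this, h]; simp
    · have : (1 : ℝ) ≤ (S.filter Q).card := by exact_mod_cast h
      nlinarith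
  have h2 : NN ok supp w' Q U ≤ 2 * lam * NN ok supp w Q U := by
    unfold NN
    rw [← PP_mul]
    apply PP_le
    intro c h1 h2 h3
    have := ih _ (hU ▸ card_sdiff_lt h2 (hne c h1)) (U \ supp c) (hD U c hDU h1 h2) rfl
    simp only [hw', h3, if_true]
    have a := mul_nonneg (by linarith : (0 : ℝ) ≤ lam) (hw c)
    nlinarith
  linarith [H U hDU]

/-- from probabilities to expected numbers -/
theorem count_le (hne : ∀ c, ok c → (supp c).Nonempty) {w : P → ℝ} (hw : ∀ c, 0 ≤ w c)
    (Q : P → Prop) {p : ℝ} (hp : p ≤ 1 / 2) {D : Finset X → Prop}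
    (hD : ∀ U c, D U → ok c → supp c ⊆ U → D (U \ supp c))
    (H : ∀ U, D U → SS ok supp U (fun S => if ∃ c ∈ S, Q c then ∏ c ∈ S, w c else 0) ≤
      p * ZZ ok supp w U) (U : Finset X) (hDU : D U) :
    NN ok supp w Q U ≤ 2 * p * ZZ ok supp w U := by
  induction hU : U.card using Nat.strong_induction_on generalizing U with
  | _ k ih =>
  have m1 := mark hne U Q (fun c S => w c * (((S.filter Q).card : ℝ) * ∏ c ∈ S, w c))
  simp only [SS_mul, mark_count hne] at m1
  have h1 : 2 * NN ok supp w Q U ≤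
      2 * SS ok supp U (fun S => if ∃ c ∈ S, Q c then ∏ c ∈ S, w c else 0) +
        PP ok supp U Q (fun c => w c * NN ok supp w Q (U \ supp c)) := by
    rw [← m1, ← mark_count hne, ← SS_mul, ← SS_mul, ← SS_add]
    apply SS_le
    intro S _
    have p0 : 0 ≤ ∏ c ∈ S, w c := prod_nonneg fun c _ => hw c
    have e1 : ∑ c ∈ S with Q c, w c * ((((S.erase c).filter Q).card : ℝ) * ∏ c ∈ S.erase c, w c) =
        ((S.filter Q).card : ℝ) * ((((S.filter Q).card : ℝ) - 1) * ∏ c ∈ S, w c) := by
      rw [← nsmul_eq_mul, ← sum_const]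
      apply sum_congr rfl
      intro c hc
      have : (((S.erase c).filter Q).card : ℝ) = ((S.filter Q).card : ℝ) - 1 := by
        rw [filter_erase, card_erase_of_mem hc, Nat.cast_sub (card_pos.2 ⟨c, hc⟩)]; simp
      rw [this, ← mul_prod_erase _ _ (mem_filter.1 hc).1]; ring
    rw [e1]
    split_ifs with h
    · have : 0 ≤ (((S.filter Q).card : ℝ) - 1) * (((S.filter Q).card : ℝ) - 2) := by
        rcases Nat.lt_or_ge (S.filter Q).card 2 with h2 | h2
        · have : (S.filter Q).card ≤ 1 := by omega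
          have h3 : ((S.filter Q).card : ℝ) ≤ 1 := by exact_mod_cast this
          nlinarith
        · have h3 : (2 : ℝ) ≤ ((S.filter Q).card : ℝ) := by exact_mod_cast h2
          nlinarith
      nlinarith [mul_nonneg this p0]
    · have : (S.filter Q).card = 0 := by
        rw [card_eq_zero, filter_eq_empty_iff]
        intro c h1 h2; exact h ⟨c, h1, h2⟩
      rw [this]; simp
  have h2 : PP ok supp U Q (fun c => w c * NN ok supp w Q (U \ supp c)) ≤ NN ok supp w Q U := by
    apply PP_le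
    intro c h1 h2 _
    have := ih _ (hU ▸ card_sdiff_lt h2 (hne c h1)) (U \ supp c) (hD U c hDU h1 h2) rfl
    have z := ZZ_pos (ok := ok) (supp := supp) hw (U \ supp c)
    apply mul_le_mul_of_nonneg_left _ (hw c)
    nlinarith
  linarith [H U hDU]

variable (ok supp) in
/-- weight of the configurations containing a polymer with property `Q` -/
noncomputable def YY (w : P → ℝ) (Q : P → Prop) (U : Finset X) : ℝ :=
  SS ok supp U (fun S => if ∃ c ∈ S, Q c then ∏ c ∈ S, w c else 0)

variable (ok supp) in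
/-- weight of the configurations containing no polymer with property `Q` -/
noncomputable def Z0 (w : P → ℝ) (Q : P → Prop) (U : Finset X) : ℝ :=
  ZZ ok supp (fun c => if Q c then 0 else w c) U

theorem prod_ite_zero' (w : P → ℝ) (Q : P → Prop) (S : Finset P) :
    ∏ c ∈ S, (if Q c then 0 else w c) = if ∃ c ∈ S, Q c then 0 else ∏ c ∈ S, w c := by
  split_ifs with h
  · obtain ⟨c, h1, h2⟩ := h
    exact prod_eq_zero h1 (if_pos h2)
  · exact prod_congr rfl fun c hc => if_neg fun h2 => h ⟨c, hc, h2⟩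

theorem ZZ_split (w : P → ℝ) (Q : P → Prop) (U : Finset X) :
    ZZ ok supp w U = Z0 ok supp w Q U + YY ok supp w Q U := by
  unfold Z0 YY ZZ
  rw [← SS_add]
  apply SS_congr
  intro S _
  rw [prod_ite_zero']
  split_ifs <;> simp

theorem YY_nonneg {w : P → ℝ} (hw : ∀ c, 0 ≤ w c) (Q : P → Prop) (U : Finset X) :
    0 ≤ YY ok supp w Q U := SS_nonneg fun S => by
  split_ifs; exacts [prod_nonneg fun c _ => hw c, le_rfl]

theorem YY_mono_dom {w : P → ℝ} (hw : ∀ c, 0 ≤ w c) (Q : P → Prop) {U U' : Finset X}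
    (h : U ⊆ U') : YY ok supp w Q U ≤ YY ok supp w Q U' := by
  apply sum_le_sum_of_subset_of_nonneg
  · intro S hS
    simp only [mem_filter, mem_univ, true_and] at *
    exact ⟨fun c hc => ⟨(hS.1 c hc).1, (hS.1 c hc).2.trans h⟩, hS.2⟩
  · intro S _ _
    split_ifs; exacts [prod_nonneg fun c _ => hw c, le_rfl]

theorem YY_le_NN (hne : ∀ c, ok c → (supp c).Nonempty) {w : P → ℝ} (hw : ∀ c, 0 ≤ w c)
    (Q : P → Prop) (U : Finset X) : YY ok supp w Q U ≤ NN ok supp w Q U := by
  rw [← mark_count hne]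
  apply SS_le
  intro S _
  have p0 : 0 ≤ ∏ c ∈ S, w c := prod_nonneg fun c _ => hw c
  split_ifs with h
  · obtain ⟨c, h1, h2⟩ := h
    have : 1 ≤ (S.filter Q).card := card_pos.2 ⟨c, mem_filter.2 ⟨h1, h2⟩⟩
    exact le_mul_of_one_le_left p0 (by exact_mod_cast this)
  · positivity

/-- marking the polymer through a fixed vertex -/
theorem mark_at_le (hne : ∀ c, ok c → (supp c).Nonempty) {w : P → ℝ} (hw : ∀ c, 0 ≤ w c)
    (Q : P → Prop) (U : Finset X) (u : X) (A : P → Prop) (hA : ∀ c, A c → u ∈ supp c) :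
    PP ok supp U A
      (fun c => w c * if Q c then ZZ ok supp w (U \ supp c) else YY ok supp w Q (U \ supp c)) ≤
      YY ok supp w Q U := by
  have m := mark hne U A
    (fun c S => w c * if Q c ∨ ∃ c' ∈ S, Q c' then ∏ c ∈ S, w c else 0)
  have e : PP ok supp U A
      (fun c => w c * if Q c then ZZ ok supp w (U \ supp c) else YY ok supp w Q (U \ supp c)) =
      PP ok supp U A (fun c => SS ok supp (U \ supp c)
        (fun S => w c * if Q c ∨ ∃ c' ∈ S, Q c' then ∏ c ∈ S, w c else 0)) := by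
    apply PP_congr
    intro c _ _ _
    rw [SS_mul]
    by_cases h : Q c
    · simp only [h, true_or, if_true]; rfl
    · simp only [h, false_or, if_false]; rfl
  rw [e, ← m]
  apply SS_le
  intro S hS
  have h1 := card_at_le_one hS u A hA
  have p0 : 0 ≤ (if ∃ c ∈ S, Q c then ∏ c ∈ S, w c else 0) := by
    split_ifs; exacts [prod_nonneg fun c _ => hw c, le_rfl]
  refine (sum_le_card_nsmul _ _ (if ∃ c ∈ S, Q c then ∏ c ∈ S, w c else 0) fun c hc => ?_).trans ?_
  · have hc := (mem_filter.1 hc).1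
    split_ifs with a1 a2 a2
    · rw [mul_prod_erase _ _ hc]
    · exfalso
      rcases a1 with a | ⟨c', a, b⟩
      exacts [a2 ⟨c, hc, a⟩, a2 ⟨c', mem_of_mem_erase a, b⟩]
    · rw [mul_zero]; exact prod_nonneg fun c _ => hw c
    · rw [mul_zero]
  · rw [nsmul_eq_mul]
    refine mul_le_of_le_one_left p0 ?_
    exact_mod_cast h1

end Pool.Agent.Lib.MP_4960b8_pr
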