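import Pool.Agent.Lib.MP_4960b8_pr.Rep
import Pool.Agent.Lib.MP_4960b8_pr.Polymer

-- part Pool.Agent.Lib.MP_4960b8_pr.Para
section

/-! The summed parafermionic vertex relation on the torus. -/

namespace Pool.Agent.Lib.MP_4960b8_pr

open Real Finset Classical

def allL : ℕ → Finset (List (ZMod 3))
  | 0 => {[]}
  | N + 1 => insert [] ((univ ×ˢ allL N).image fun p => p.1 :: p.2)

theorem mem_allL {N : ℕ} {l : List (ZMod 3)} (h : l.length ≤ N) : l ∈ allL N := by
  induction N generalizing l with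
  | zero => simp [allL, List.length_eq_zero_iff.1 (Nat.le_zero.1 h)]
  | succ N ih =>
    cases l with
    | nil => simp [allL]
    | cons a l =>
      simp only [allL, mem_insert, mem_image]
      exact Or.inr ⟨(a, l), by simp [ih (by simpa using h)], rfl⟩

theorem sum_allL (N : ℕ) (g : List (ZMod 3) → ℝ) :
    ∑ l ∈ allL (N + 1), g l = g [] + ∑ a, ∑ l ∈ allL N, g (a :: l) := by
  rw [allL, sum_insert (by simp), sum_image, sum_product]
  rintro ⟨a, l⟩ - ⟨b, l'⟩ - h
  simpa using h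

def seqL (e : ℤ → ZMod 3) : ℤ → ℕ → List (ZMod 3)
  | _, 0 => []
  | s, k + 1 => e (s + 1) :: seqL e (s + 1) k

theorem seqL_length (e : ℤ → ZMod 3) (s : ℤ) (k : ℕ) : (seqL e s k).length = k := by
  induction k generalizing s with
  | zero => rfl
  | succ k ih => simp [seqL, ih]

theorem seqL_eq {e e' : ℤ → ZMod 3} {s : ℤ} {k : ℕ} (h : seqL e s k = seqL e' s k) :
    ∀ t, s < t → t ≤ s + k → e t = e' t := by
  induction k generalizing s with
  | zero => intro t h1 h2; omega
  | succ k ih =>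
    simp only [seqL, List.cons.injEq] at h
    intro t h1 h2
    rcases eq_or_lt_of_le (show s + 1 ≤ t by omega) with h3 | h3
    · rw [← h3]; exact h.1
    · exact ih h.2 t h3 (by push_cast at h2; omega)

theorem seqL_of (e : ℤ → ZMod 3) (l : List (ZMod 3)) (s : ℤ)
    (h : ∀ i : ℕ, i < l.length → e (s + 1 + i) = l.getD i 0) : seqL e s l.length = l := by
  induction l generalizing s with
  | nil => rfl
  | cons a l ih =>
    simp only [List.length_cons, seqL, List.cons.injEq]
    refine ⟨by simpa using h 0 (by simp), ih _ fun i hi => ?_⟩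
    have := h (i + 1) (by simpa using hi)
    rw [List.getD_cons_succ] at this
    rw [← this]; congr 1; push_cast; ring

theorem sum_tau (e : ZMod 3) (g : ℤ → ℝ) :
    ∑ e', (if e ≠ e' then g (tau e e') else 0) = g 1 + g (-1) := by
  have H : ∀ e : ZMod 3, (univ : Finset (ZMod 3)) = {e, e + 1, e + 2} ∧
      e ∉ ({e + 1, e + 2} : Finset (ZMod 3)) ∧ e + 1 ≠ e + 2 ∧ e ≠ e + 1 ∧ e ≠ e + 2 ∧
      tau e (e + 1) = -1 ∧ tau e (e + 2) = 1 := by
    intro e; rcases zmod3 e with rfl | rfl | rfl <;> decide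
  obtain ⟨hu, h1, h2, h3, h4, h5, h6⟩ := H e
  rw [hu, sum_insert h1, sum_pair h2]
  simp [h3, h4, h5, h6, add_comm]

section
variable {R : Type} [Ring R] [DecidableEq R] (θ x : ℝ) (Z : Finset (V R) → ℝ)

noncomputable def wt (h : V R → ℝ) :
    Finset (V R) → V R → ZMod 3 → ℤ → List (ZMod 3) → ℝ
  | U, v, e, W, [] => h (nb v e) * cos (θ * W) * Z U
  | U, v, e, W, e' :: l =>
    if nb v e ∈ U ∧ e ≠ e' then x * wt h (U.erase (nb v e)) (nb v e) e' (W + tau e e') l else 0

noncomputable def EE (N : ℕ) (h : V R → ℝ) (U : Finset (V R)) (v : V R) (e : ZMod 3) (W : ℤ) : ℝ :=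
  ∑ l ∈ allL N, wt θ x Z h U v e W l

theorem wt_sub (h1 h2 : V R → ℝ) (l : List (ZMod 3)) (U : Finset (V R)) (v : V R) (e : ZMod 3)
    (W : ℤ) : wt θ x Z (fun v => h1 v - h2 v) U v e W l =
      wt θ x Z h1 U v e W l - wt θ x Z h2 U v e W l := by
  induction l generalizing U v e W with
  | nil => simp only [wt]; ring
  | cons a l ih =>
    simp only [wt]
    split_ifs
    · rw [ih]; ring
    · simp

theorem EE_sub (N : ℕ) (h1 h2 : V R → ℝ) (U : Finset (V R)) (v : V R) (e : ZMod 3) (W : ℤ) :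
    EE θ x Z N (fun v => h1 v - h2 v) U v e W =
      EE θ x Z N h1 U v e W - EE θ x Z N h2 U v e W := by
  unfold EE
  rw [← sum_sub_distrib]
  exact sum_congr rfl fun l _ => wt_sub θ x Z h1 h2 l U v e W

theorem EE_succ (N : ℕ) (h : V R → ℝ) (U : Finset (V R)) (v : V R) (e : ZMod 3) (W : ℤ) :
    EE θ x Z (N + 1) h U v e W = h (nb v e) * cos (θ * W) * Z U +
      ∑ e', if nb v e ∈ U ∧ e ≠ e' then
        x * EE θ x Z N h (U.erase (nb v e)) (nb v e) e' (W + tau e e') else 0 := by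
  unfold EE
  rw [sum_allL]
  simp only [wt]
  congr 1
  apply sum_congr rfl
  intro e' _
  split_ifs
  · rw [mul_sum]
  · simp

def good (U : Finset (V R)) (f : ℤ → V R) (e : ℤ → ZMod 3) (s : ℤ) (k : ℕ) : Prop :=
  (∀ t, s < t → t ≤ s + k → f t ∈ U ∧ e (t - 1) ≠ e t) ∧
    ∀ a b, s < a → a < b → b ≤ s + k → f a ≠ f b

theorem wt_seq (h : V R → ℝ) {f : ℤ → V R} {e : ℤ → ZMod 3} (hf : Path f e) (k : ℕ) (s : ℤ)
    (U : Finset (V R)) (W : ℤ) :
    wt θ x Z h U (f s) (e s) W (seqL e s k) =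
      if good U f e s k then x ^ k * (h (f (s + k + 1)) * cos (θ * (W + turns e s k : ℤ)) *
        Z (U \ (Ioc s (s + k)).image f)) else 0 := by
  induction k generalizing s U W with
  | zero =>
    have : good U f e s 0 := ⟨fun t h1 h2 => by omega, fun a b h1 h2 h3 => by omega⟩
    simp [seqL, wt, this, turns, hf s]
  | succ k ih =>
    simp only [seqL, wt]
    rw [← hf s, ih]
    have key : good U f e s (k + 1) ↔
        (f (s + 1) ∈ U ∧ e s ≠ e (s + 1)) ∧ good (U.erase (f (s + 1))) f e (s + 1) k := by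
      constructor
      · rintro ⟨h1, h2⟩
        have := h1 (s + 1) (by omega) (by push_cast; omega)
        rw [add_sub_cancel_right] at this
        refine ⟨this, fun t a1 a2 => ?_, fun a b a1 a2 a3 => h2 a b (by omega) a2
          (by push_cast; omega)⟩
        have := h1 t (by omega) (by push_cast; omega)
        exact ⟨mem_erase.2 ⟨(h2 _ _ (by omega) a1 (by push_cast; omega)).symm, this.1⟩, this.2⟩
      · rintro ⟨h0, h1, h2⟩
        refine ⟨fun t a1 a2 => ?_, fun a b a1 a2 a3 => ?_⟩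
        · rcases eq_or_lt_of_le (show s + 1 ≤ t by omega) with h3 | h3
          · rw [← h3, add_sub_cancel_right]; exact h0
          · have := h1 t h3 (by push_cast at a2; omega)
            exact ⟨mem_of_mem_erase this.1, this.2⟩
        · rcases eq_or_lt_of_le (show s + 1 ≤ a by omega) with h3 | h3
          · rw [← h3]
            exact (ne_of_mem_erase (h1 b (by omega) (by push_cast at a3; omega)).1).symm
          · exact h2 a b h3 a2 (by push_cast at a3; omega)
    have e1 : U \ (Ioc s (s + (k + 1 : ℕ))).image f =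
        U.erase (f (s + 1)) \ (Ioc (s + 1) (s + 1 + k)).image f := by
      ext v
      simp only [mem_sdiff, mem_erase, mem_image, mem_Ioc, not_exists, not_and]
      constructor
      · rintro ⟨h1, h2⟩
        refine ⟨⟨fun h3 => h2 (s + 1) ⟨by omega, by push_cast; omega⟩ h3.symm, h1⟩,
          fun t ht => h2 t ⟨by omega, by push_cast; omega⟩⟩
      · rintro ⟨⟨h1, h2⟩, h3⟩
        refine ⟨h2, fun t ht => ?_⟩
        rcases eq_or_lt_of_le (show s + 1 ≤ t by omega) with h4 | h4
        · rw [← h4]; exact h1.symm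
        · exact h3 t ⟨h4, by push_cast at ht; omega⟩
    rw [key, e1, turns_succ']
    by_cases h1 : f (s + 1) ∈ U ∧ e s ≠ e (s + 1)
    · by_cases h2 : good (U.erase (f (s + 1))) f e (s + 1) k
      · rw [if_pos h1, if_pos h2, if_pos ⟨h1, h2⟩, pow_succ', add_assoc W,
          show s + ((k + 1 : ℕ) : ℤ) + 1 = s + 1 + k + 1 by push_cast; ring]
        ring
      · rw [if_pos h1, if_neg h2, if_neg (fun h => h2 h.2), mul_zero]
    · rw [if_neg h1, if_neg (fun h => h1 h.1)]

end

variable {L : ℕ} [Fact (1 < L)]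

noncomputable def supp (c : Finset (Sym2 (V (ZMod L)))) : Finset (V (ZMod L)) :=
  univ.filter fun v => On v c

theorem mem_supp {c : Finset (Sym2 (V (ZMod L)))} {v : V (ZMod L)} : v ∈ supp c ↔ On v c := by
  simp [supp]

theorem supp_ne (c : Finset (Sym2 (V (ZMod L)))) (h : IsLoop c) : (supp c).Nonempty := by
  obtain ⟨m, f, h⟩ := h
  exact ⟨f 0, mem_supp.2 ((h.on _).2 ⟨0, rfl⟩)⟩

theorem Param.le_card {m : ℕ} {f : ℤ → V (ZMod L)} {c : Finset (Sym2 (V (ZMod L)))}
    (h : Param m f c) : m ≤ (supp c).card := by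
  rw [← card_range m]
  apply card_le_card_of_injOn (fun t : ℕ => f t)
  · intro t _
    exact mem_coe.2 (mem_supp.2 ((h.on _).2 ⟨t, rfl⟩))
  · intro a ha b hb hab
    simp only [coe_range, Set.mem_Iio] at ha hb
    by_contra hne
    rcases lt_or_gt_of_ne hne with h' | h'
    · exact h.ne (by omega) (by omega) hab
    · exact h.ne (by omega) (by omega) hab.symm

theorem rep_at {c : Finset (Sym2 (V (ZMod L)))} (h : IsLoop c) (u : V ℤ) (e0 : ZMod 3)
    (he : s(proj L u, nb (proj L u) e0) ∈ c) :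
    ∃ m F e, Rep L m F e c ∧ F 0 = u ∧ e 0 = e0 := by
  obtain ⟨m, f, h⟩ := h
  obtain ⟨s, hs⟩ := (h.on (proj L u)).1 ⟨_, he, Sym2.mem_mk_left _ _⟩
  have : ∃ g, Param m g c ∧ g 0 = proj L u ∧ g 1 = nb (proj L u) e0 := by
    have he' := he
    rw [hs] at he'
    rcases h.nbr he' with h1 | h1
    · exact ⟨_, h.shift s, by simpa using hs.symm, by rw [hs]; exact h1.symm⟩
    · exact ⟨_, h.rev s, by simpa using hs.symm, by rw [hs]; exact h1.symm⟩
  obtain ⟨g, hg, g0, g1⟩ := this
  obtain ⟨F, e, hF, F0, hp⟩ := exists_rep hg g0.symm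
  refine ⟨m, F, e, hF, F0, ?_⟩
  have := hp (0 + 1)
  rw [hF.1, proj_nb, F0, zero_add, g1] at this
  exact nb_inj this

theorem per_mod {α : Type} {e : ℤ → α} {m : ℕ} (h : ∀ t, e (t + m) = e t) (t : ℤ) :
    e (t % m) = e t := by
  have hper : Function.Periodic e (m : ℤ) := h
  conv_rhs => rw [← Int.emod_add_mul_ediv t m, mul_comm]
  exact (hper.int_mul (t / m) (t % m)).symm

/-- returning paths are rooted oriented loops -/
theorem returns (θ x : ℝ) (Z : Finset (V (ZMod L)) → ℝ) (u : V ℤ) (e0 : ZMod 3) :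
    ∃ Wc : Finset (Sym2 (V (ZMod L))) → ℤ,
      (∀ c, IsLoop c → s(proj L u, nb (proj L u) e0) ∈ c →
        ∃ m F e, Rep L m F e c ∧ F 0 = u ∧ e 0 = e0 ∧ Wc c = turns e 0 (m - 1)) ∧
      ∀ (U : Finset (V (ZMod L))) (N : ℕ) (W : ℤ), proj L u ∈ U → U.card ≤ N + 1 →
        EE θ x Z N (fun v => if v = proj L u then 1 else 0) (U.erase (proj L u)) (proj L u) e0 W =
          PP IsLoop supp U (fun c => s(proj L u, nb (proj L u) e0) ∈ c)
            (fun c => x ^ (c.card - 1) * (cos (θ * (W + Wc c : ℤ)) * Z (U \ supp c))) := by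
  have ex : ∀ c : Finset (Sym2 (V (ZMod L))), ∃ m F e,
      (IsLoop c → s(proj L u, nb (proj L u) e0) ∈ c → Rep L m F e c ∧ F 0 = u ∧ e 0 = e0) := by
    intro c
    by_cases h : IsLoop c ∧ s(proj L u, nb (proj L u) e0) ∈ c
    · obtain ⟨m, F, e, h⟩ := rep_at h.1 u e0 h.2
      exact ⟨m, F, e, fun _ _ => h⟩
    · exact ⟨0, fun _ => u, fun _ => 0, fun h1 h2 => absurd ⟨h1, h2⟩ h⟩
  choose m F e hrep using ex
  refine ⟨fun c => turns (e c) 0 (m c - 1), fun c h1 h2 =>
    ⟨m c, F c, e c, (hrep c h1 h2).1, (hrep c h1 h2).2.1, (hrep c h1 h2).2.2, rfl⟩, ?_⟩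
  intro U N W hu hN
  set h : V (ZMod L) → ℝ := fun v => if v = proj L u then 1 else 0 with hh
  set K := univ.filter fun c => IsLoop c ∧ supp c ⊆ U ∧ s(proj L u, nb (proj L u) e0) ∈ c with hK
  have memK : ∀ c, c ∈ K ↔ IsLoop c ∧ supp c ⊆ U ∧ s(proj L u, nb (proj L u) e0) ∈ c := by
    intro c; simp [hK]
  have step1 : ∀ c ∈ K, wt θ x Z h (U.erase (proj L u)) (proj L u) e0 W (seqL (e c) 0 (m c - 1)) =
      x ^ (c.card - 1) * (cos (θ * (W + turns (e c) 0 (m c - 1) : ℤ)) * Z (U \ supp c)) := by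
    intro c hc
    obtain ⟨h1, h2, h3⟩ := (memK c).1 hc
    obtain ⟨r, r0, r1⟩ := hrep c h1 h3
    have h3m := r.2.1
    have := wt_seq θ x Z h (r.1.proj L) (m c - 1) 0 (U.erase (proj L u)) W
    simp only [r0, r1] at this
    have hm : ((m c - 1 : ℕ) : ℤ) = m c - 1 := by omega
    have inU : ∀ t, proj L (F c t) ∈ U := fun t => h2 (mem_supp.2 ((r.2.on _).2 ⟨t, rfl⟩))
    have gd : good (U.erase (proj L u)) (fun t => proj L (F c t)) (e c) 0 (m c - 1) := by
      refine ⟨fun t a1 a2 => ⟨mem_erase.2 ⟨?_, inU t⟩, ?_⟩, fun a b a1 a2 a3 => ?_⟩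
      · rw [← r0]; exact (r.2.ne a1 (by omega)).symm
      · have := r.ne (t - 1); rwa [sub_add_cancel] at this
      · exact r.2.ne a2 (by omega)
    have e1 : proj L (F c (0 + ((m c - 1 : ℕ) : ℤ) + 1)) = proj L u := by
      rw [← r0, ← r.2.per 0]; congr 2; omega
    have e2 : U.erase (proj L u) \ (Ioc 0 (0 + ((m c - 1 : ℕ) : ℤ))).image
        (fun t => proj L (F c t)) = U \ supp c := by
      ext v
      simp only [mem_sdiff, mem_erase, mem_image, mem_Ioc, mem_supp, r.2.on]
      constructor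
      · rintro ⟨⟨a1, a2⟩, a3⟩
        refine ⟨a2, ?_⟩
        rintro ⟨t, rfl⟩
        have b1 := Int.emod_nonneg t (by omega : (m c : ℤ) ≠ 0)
        have b2 := Int.emod_lt_of_pos t (by omega : (0 : ℤ) < m c)
        have b3 := r.2.mod t
        rcases eq_or_lt_of_le b1 with b4 | b4
        · rw [← b4] at b3; exact a1 (by rw [← r0]; exact b3.symm)
        · exact a3 ⟨_, ⟨b4, by omega⟩, b3⟩
      · rintro ⟨a1, a2⟩
        exact ⟨⟨fun a3 => a2 ⟨0, by rw [a3, r0]⟩, a1⟩, fun ⟨t, _, a4⟩ => a2 ⟨t, a4.symm⟩⟩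
    rw [this, if_pos gd, e1, e2, r.2.card]
    simp [hh]
  have inj : Set.InjOn (fun c => seqL (e c) 0 (m c - 1)) K := by
    intro c hc c' hc' hcc
    obtain ⟨h1, -, h3⟩ := (memK c).1 hc
    obtain ⟨h1', -, h3'⟩ := (memK c').1 hc'
    obtain ⟨r, r0, r1⟩ := hrep c h1 h3
    obtain ⟨r', r0', r1'⟩ := hrep c' h1' h3'
    have h3m := r.2.1
    have h3m' := r'.2.1
    have hl := congrArg List.length hcc
    simp only [seqL_length] at hl
    have hm : m c' = m c := by omega
    simp only [hm] at hcc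
    rw [hm] at r'
    obtain ⟨-, -, -, -, -, p⟩ := r.disp
    obtain ⟨-, -, -, -, -, p'⟩ := r'.disp
    have he : e c = e c' := by
      funext t
      rw [← per_mod p t, ← per_mod p' t]
      have b1 := Int.emod_nonneg t (by omega : (m c : ℤ) ≠ 0)
      have b2 := Int.emod_lt_of_pos t (by omega : (0 : ℤ) < m c)
      rcases eq_or_lt_of_le b1 with b4 | b4
      · rw [← b4, r1, r1']
      · exact seqL_eq hcc _ b4 (by omega)
    have hF : ∀ t, F c t = F c' t := r.1.unique (he ▸ r'.1) (by rw [r0, r0'])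
    ext z
    rw [r.2.2.2.2, r'.2.2.2.2]
    simp only [hF]
  have hPP : ∀ g, PP IsLoop supp U (fun c => s(proj L u, nb (proj L u) e0) ∈ c) g =
      ∑ c ∈ K, g c := fun g => by
    unfold PP
    apply sum_congr _ (fun _ _ => rfl)
    ext c; rw [memK]; simp
  unfold EE
  rw [hPP, ← sum_congr rfl step1, ← sum_image (f := fun l =>
    wt θ x Z h (U.erase (proj L u)) (proj L u) e0 W l) inj]
  symm
  apply sum_subset
  · intro l hl
    obtain ⟨c, hc, rfl⟩ := mem_image.1 hl
    obtain ⟨h1, h2, h3⟩ := (memK c).1 hc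
    obtain ⟨r, -, -⟩ := hrep c h1 h3
    have := r.2.le_card.trans (card_le_card h2)
    exact mem_allL (by rw [seqL_length]; omega)
  · intro l _ hl
    by_contra hw
    apply hl
    obtain ⟨k, hk⟩ : ∃ k, k = l.length := ⟨_, rfl⟩
    obtain ⟨ε, hε⟩ : ∃ ε : ℤ → ZMod 3,
        ε = fun t => (e0 :: l).getD (t % ((k + 1 : ℕ) : ℤ)).toNat 0 := ⟨_, rfl⟩
    have ε0 : ε 0 = e0 := by simp [hε]
    have εp : ∀ t, ε (t + (k + 1 : ℕ)) = ε t := fun t => by simp only [hε, Int.add_emod_right]
    have εl : seqL ε 0 k = l := by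
      rw [hk]
      apply seqL_of
      intro i hi
      rw [hε]
      simp only
      rw [Int.emod_eq_of_lt (by omega) (by omega), show (0 + 1 + (i : ℤ)).toNat = i + 1 by omega,
        List.getD_cons_succ]
    obtain ⟨f, hf, f0⟩ := exists_path ε (proj L u)
    have := wt_seq θ x Z h hf k 0 (U.erase (proj L u)) W
    rw [f0, ε0, εl] at this
    rw [this] at hw
    have gd : good (U.erase (proj L u)) f ε 0 k := by
      by_contra h0; exact hw (if_neg h0)
    rw [if_pos gd] at hw
    have fk : f (0 + k + 1) = proj L u := by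
      by_contra h0; apply hw; simp only [hh, h0]; simp
    have fp : ∀ t, f (t + (k + 1 : ℕ)) = f t := by
      have p1 := hf.shift (k + 1 : ℕ)
      have : (fun t => ε (((k + 1 : ℕ) : ℤ) + t)) = ε := funext fun t => by rw [add_comm, εp]
      rw [this] at p1
      intro t
      have := p1.unique hf (by rw [f0, ← fk]; congr 1; push_cast; ring) t
      rwa [add_comm] at this
    have k2 : 2 ≤ k := by
      by_contra h0
      have f1 := hf 0
      rw [f0, ε0] at f1
      rcases (show k = 0 ∨ k = 1 by omega) with rfl | rfl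
      · rw [show (0 : ℤ) + (0 : ℕ) + 1 = 0 + 1 by simp, f1] at fk
        exact nb_ne _ _ fk
      · have f2 := hf (0 + 1)
        rw [show (0 : ℤ) + (1 : ℕ) + 1 = 0 + 1 + 1 by simp, f2] at fk
        have f3 := hf.back 0
        rw [f0, ← fk] at f3
        have := (gd.1 (0 + 1) (by omega) (by simp)).2
        exact this (by rw [add_sub_cancel_right]; exact (nb_inj f3).symm)
    have finj : ∀ a b : ℤ, 0 ≤ a → a < b → b ≤ k → f a ≠ f b := by
      intro a b a1 a2 a3
      rcases eq_or_lt_of_le a1 with a4 | a4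
      · rw [← a4, f0]
        exact (ne_of_mem_erase (gd.1 b (by omega) (by omega)).1).symm
      · exact gd.2 a b a4 a2 (by omega)
    have par : Param (k + 1) f ((range (k + 1)).image fun t : ℕ => s(f t, f (t + 1))) := by
      refine ⟨by omega, fun t => ⟨_, hf t⟩, fun s t => ⟨fun hst => ?_, fun hd => ?_⟩, fun z => ?_⟩
      · rw [← per_mod fp s, ← per_mod fp t] at hst
        have b1 := Int.emod_nonneg s (by omega : ((k + 1 : ℕ) : ℤ) ≠ 0)
        have b2 := Int.emod_lt_of_pos s (by omega : (0 : ℤ) < (k + 1 : ℕ))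
        have b3 := Int.emod_nonneg t (by omega : ((k + 1 : ℕ) : ℤ) ≠ 0)
        have b4 := Int.emod_lt_of_pos t (by omega : (0 : ℤ) < (k + 1 : ℕ))
        have : t % ((k + 1 : ℕ) : ℤ) = s % ((k + 1 : ℕ) : ℤ) := by
          by_contra hne
          rcases lt_or_gt_of_ne hne with h' | h'
          · exact finj _ _ b3 h' (by omega) hst.symm
          · exact finj _ _ b1 h' (by omega) hst
        exact Int.ModEq.dvd this
      · rw [← per_mod fp s, ← per_mod fp t]
        congr 1
        exact ((Int.modEq_iff_dvd).2 hd).symm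
      · rw [mem_image]
        constructor
        · rintro ⟨t, -, rfl⟩; exact ⟨_, rfl⟩
        · rintro ⟨t, rfl⟩
          have a1 := Int.emod_nonneg t (by omega : ((k + 1 : ℕ) : ℤ) ≠ 0)
          have a2 := Int.emod_lt_of_pos t (by omega : (0 : ℤ) < (k + 1 : ℕ))
          refine ⟨(t % ((k + 1 : ℕ) : ℤ)).toNat, mem_range.2 (by omega), ?_⟩
          rw [Int.toNat_of_nonneg a1, per_mod fp, hf, hf, per_mod fp, per_mod εp]
    obtain ⟨c, hc⟩ : ∃ c, Param (k + 1) f c := ⟨_, par⟩
    have h1 : IsLoop c := ⟨_, _, hc⟩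
    have h3 : s(proj L u, nb (proj L u) e0) ∈ c :=
      (hc.2.2.2 _).2 ⟨0, by rw [hf, f0, ε0]⟩
    have h2 : supp c ⊆ U := by
      intro v hv
      obtain ⟨t, rfl⟩ := (hc.on v).1 (mem_supp.1 hv)
      rw [← per_mod fp t]
      have a1 := Int.emod_nonneg t (by omega : ((k + 1 : ℕ) : ℤ) ≠ 0)
      have a2 := Int.emod_lt_of_pos t (by omega : (0 : ℤ) < (k + 1 : ℕ))
      rcases eq_or_lt_of_le a1 with a4 | a4
      · rw [← a4, f0]; exact hu
      · exact mem_of_mem_erase (gd.1 _ a4 (by omega)).1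
    obtain ⟨r, r0, r1⟩ := hrep c h1 h3
    have hm : m c = k + 1 := by rw [← r.2.card, hc.card]
    have hF : ∀ t, proj L (F c t) = f t := hc.unique r.2 (by rw [f0, ← r0]) (by
      have a := r.1 0
      have b := hf 0
      rw [zero_add] at a b
      rw [a, b, proj_nb, r0, r1, f0, ε0])
    have he : e c = ε := by
      funext t
      have a := hF (t + 1)
      rw [r.1, proj_nb, hF, hf] at a
      exact nb_inj a
    exact mem_image.2 ⟨c, (memK c).2 ⟨h1, h2, h3⟩, by simp only [hm, he]; exact εl⟩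

end Pool.Agent.Lib.MP_4960b8_pr
end

-- part Pool.Agent.Lib.MP_4960b8_pr.Ident
section

/-! The exact identity on the torus. -/

namespace Pool.Agent.Lib.MP_4960b8_pr

open Real Finset Classical

set_option linter.unusedSectionVars false

variable {L : ℕ} [Fact (1 < L)]

noncomputable def sig (c : Finset (Sym2 (V (ZMod L)))) : ℤ :=
  if NonContr L c then 2 else if Surrounds L c then 8 else -4

/-- modified loop activities -/
noncomputable def w2 (θ x : ℝ) (c : Finset (Sym2 (V (ZMod L)))) : ℝ :=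
  -2 * cos (θ * sig c) * x ^ c.card

theorem turns_split {m : ℕ} (hm : 3 ≤ m) (e : ℤ → ZMod 3) :
    turns e (-1) m = tau (e (-1)) (e 0) + turns e 0 (m - 1) := by
  obtain ⟨k, rfl⟩ : ∃ k, m = k + 1 := ⟨m - 1, by omega⟩
  rw [turns_succ']; rfl

theorem phase {U : Finset (V (ZMod L))} {m : ℕ} {F : ℤ → V ℤ} {e : ℤ → ZMod 3}
    {c : Finset (Sym2 (V (ZMod L)))} (r : Rep L m F e c) (hc : supp c ⊆ U) {p : V ℤ} {ε : ZMod 3}
    (hp : Adm L U p) (h0 : F 0 = nb p ε) (n1 : ε ≠ e 0) :
    tau ε (e 0) + turns e 0 (m - 1) = tau ε (e 0) * sig c := by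
  have hU : ∀ t, proj L (F t) ∈ U := fun t => hc (mem_supp.2 ((r.2.on _).2 ⟨t, rfl⟩))
  have hFp : ∀ t, F t ≠ p := fun t h => hp.not_mem (h ▸ hU t)
  have n2 : ε ≠ e (-1) := by
    rintro rfl
    have := r.1.back (-1)
    rw [show (-1 : ℤ) + 1 = 0 by ring, h0, nb_nb] at this
    exact hFp _ this
  have n3 : e (-1) ≠ e 0 := r.ne (-1)
  have t1 := tau_third' n1 n2 n3.symm
  have sp := turns_split r.2.1 e
  unfold sig
  by_cases hcl : F m = F 0
  · rw [if_neg (r.not_nonContr hcl)]
    have iff := r.surrounds_iff hcl hU hp h0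
    obtain ⟨k, rfl, hk⟩ := r.closed hcl
    by_cases hw : var (pos p) F 0 (k + 3) = 0
    · rw [if_neg (fun h => iff.1 h hw)]
      have := hk.third_zero h0 hFp hw
      linarith
    · rw [if_pos (iff.2 hw)]
      have := hk.third_ne h0 hFp hw
      linarith
  · rw [if_pos (r.nonContr hcl)]
    have := r.open_turns hcl
    linarith

theorem edge_iff {U : Finset (V (ZMod L))} {c : Finset (Sym2 (V (ZMod L)))} (h : IsLoop c)
    (hc : supp c ⊆ U) {v : V (ZMod L)} (hv : v ∉ U) {ε e' : ZMod 3} (hne : ε ≠ e') :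
    s(nb v ε, nb (nb v ε) e') ∈ c ↔ nb v ε ∈ supp c := by
  refine ⟨fun h1 => mem_supp.2 ⟨_, h1, Sym2.mem_mk_left _ _⟩, fun h1 => ?_⟩
  obtain ⟨m, f, hf⟩ := h
  obtain ⟨s, hs⟩ := (hf.on _).1 (mem_supp.1 h1)
  obtain ⟨a, ha⟩ := hf.2.1 s
  obtain ⟨b, hb⟩ := (hf.2.1 (s - 1)).symm
  rw [sub_add_cancel] at hb
  have h3 := hf.1
  have hU : ∀ t, f t ∈ U := fun t => hc (mem_supp.2 ((hf.on _).2 ⟨t, rfl⟩))
  have a1 : a ≠ ε := by
    rintro rfl
    rw [← hs, nb_nb] at ha
    exact hv (ha ▸ hU _)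
  have b1 : b ≠ ε := by
    rintro rfl
    rw [← hs, nb_nb] at hb
    exact hv (hb ▸ hU _)
  have ab : a ≠ b := by
    rintro rfl
    exact hf.ne (a := s - 1) (b := s + 1) (by omega) (by omega) (hb.trans ha.symm)
  have H : ∀ a b ε e' : ZMod 3, a ≠ ε → b ≠ ε → a ≠ b → ε ≠ e' → e' = a ∨ e' = b := by
    intro a b ε e'
    rcases zmod3 a with rfl | rfl | rfl <;> rcases zmod3 b with rfl | rfl | rfl <;>
      rcases zmod3 ε with rfl | rfl | rfl <;> rcases zmod3 e' with rfl | rfl | rfl <;> decide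
  rw [hs, hf.2.2.2]
  rcases H a b ε e' a1 b1 ab hne with rfl | rfl
  · exact ⟨s, by rw [ha]⟩
  · exact ⟨s - 1, by rw [sub_add_cancel, hb, Sym2.eq_swap]⟩

theorem card_pos_loop {c : Finset (Sym2 (V (ZMod L)))} (h : IsLoop c) : 1 ≤ c.card := by
  obtain ⟨m, f, hf⟩ := h
  have := hf.1
  rw [hf.card]; omega

theorem PP_add {P X : Type} [Fintype P] [DecidableEq X] {ok : P → Prop} {supp : P → Finset X}
    (U : Finset X) (Q : P → Prop) (g h : P → ℝ) :
    PP ok supp U Q (fun c => g c + h c) = PP ok supp U Q g + PP ok supp U Q h := sum_add_distrib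

theorem ident_ind {θ x : ℝ} (hx : 2 * x * cos θ = 1) (N : ℕ) (U : Finset (V (ZMod L))) (p : V ℤ)
    (ε : ZMod 3) (W : ℤ) (hN : U.card ≤ N) (hp : Adm L U p) :
    EE θ x (ZZ IsLoop supp (w2 θ x)) N (fun v => if v ∈ U then 0 else 1) U (proj L p) ε W =
      cos (θ * W) * ZZ IsLoop supp (w2 θ x) U := by
  induction N generalizing U p ε W with
  | zero =>
    have : U = ∅ := card_eq_zero.1 (by omega)
    subst this
    simp [EE, allL, wt]
  | succ N ih =>
    rw [EE_succ, ← proj_nb]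
    by_cases hu : proj L (nb p ε) ∈ U
    swap
    · simp [hu]
    set Z := ZZ IsLoop supp (w2 (L := L) θ x) with hZ
    set u := proj L (nb p ε) with hud
    have hadm : Adm L (U.erase u) (nb p ε) :=
      Adm.step p ε (hp.mono (erase_subset _ _)) (notMem_erase _ _)
    have hcard : (U.erase u).card ≤ N := by rw [card_erase_of_mem hu]; omega
    have hh : (fun v => if v ∈ U then (0 : ℝ) else 1) =
        fun v => (if v ∈ U.erase u then (0 : ℝ) else 1) - (if v = u then 1 else 0) := by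
      funext v
      by_cases h1 : v = u
      · subst h1; simp [hu]
      · simp [h1]
    have key : ∀ e', ε ≠ e' →
        x * EE θ x Z N (fun v => if v ∈ U then 0 else 1) (U.erase u) u e' (W + tau ε e') =
          x * cos (θ * (W + tau ε e' : ℤ)) * Z (U.erase u) -
            PP IsLoop supp U (fun c => u ∈ supp c)
              (fun c => x ^ c.card * (cos (θ * (W + tau ε e' * sig c : ℤ)) * Z (U \ supp c))) := by
      intro e' he'
      obtain ⟨Wc, h1, h2⟩ := returns θ x Z (nb p ε) e'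
      rw [hh, EE_sub, ih _ _ _ _ hcard hadm, h2 U N _ hu hN, mul_sub, ← PP_mul, mul_assoc]
      congr 1
      rw [PP_ite, PP_ite U (fun c => u ∈ supp c)]
      apply PP_congr
      intro c c1 c2 _
      have iff := edge_iff c1 c2 hp.not_mem he'
      rw [← proj_nb, ← hud] at iff
      rw [← hud]
      by_cases h3 : u ∈ supp c
      · rw [if_pos h3, if_pos (iff.2 h3)]
        obtain ⟨m, F, e, r, r0, r1, r2⟩ := h1 c c1 (iff.2 h3)
        have := phase r c2 hp r0 (r1 ▸ he')
        rw [r1, ← r2] at this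
        rw [add_assoc, this, ← mul_assoc, ← pow_succ', Nat.sub_add_cancel (card_pos_loop c1)]
      · rw [if_neg h3, if_neg (fun h => h3 (iff.1 h))]
    obtain ⟨g, hg⟩ : ∃ g : ℤ → ℝ, g = fun t : ℤ => x * cos (θ * (W + t : ℤ)) * Z (U.erase u) -
            PP IsLoop supp U (fun c => u ∈ supp c)
              (fun c => x ^ c.card * (cos (θ * (W + t * sig c : ℤ)) * Z (U \ supp c))) := ⟨_, rfl⟩
    have e1 : ∑ e', (if u ∈ U ∧ ε ≠ e' then
        x * EE θ x Z N (fun v => if v ∈ U then 0 else 1) (U.erase u) u e' (W + tau ε e') else 0) =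
        ∑ e', if ε ≠ e' then g (tau ε e') else 0 := by
      apply sum_congr rfl
      intro e' _
      by_cases he' : ε ≠ e'
      · rw [if_pos ⟨hu, he'⟩, if_pos he', key e' he', hg]
      · rw [if_neg (fun h => he' h.2), if_neg he']
    rw [e1, sum_tau, if_pos hu, hg]
    simp only []
    have zv : Z U = Z (U.erase u) + NN IsLoop supp (w2 θ x) (fun c => u ∈ supp c) U :=
      ZZ_vertex supp_ne U u _
    have e2 : PP IsLoop supp U (fun c => u ∈ supp c)
          (fun c => x ^ c.card * (cos (θ * (W + 1 * sig c : ℤ)) * Z (U \ supp c))) +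
        PP IsLoop supp U (fun c => u ∈ supp c)
          (fun c => x ^ c.card * (cos (θ * (W + -1 * sig c : ℤ)) * Z (U \ supp c))) =
        - cos (θ * W) * NN IsLoop supp (w2 θ x) (fun c => u ∈ supp c) U := by
      unfold NN
      rw [← PP_add, ← PP_mul]
      apply PP_congr
      intro c _ _ _
      push_cast
      rw [one_mul, neg_one_mul, mul_add, mul_add, mul_neg, cos_add, cos_add, cos_neg, sin_neg,
        w2, ← hZ]
      ring
    have e3 : x * cos (θ * (W + 1 : ℤ)) + x * cos (θ * (W + -1 : ℤ)) = cos (θ * W) := by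
      push_cast
      rw [mul_add, mul_add, mul_neg, mul_one, cos_add, cos_add, cos_neg, sin_neg]
      linear_combination cos (θ * W) * hx
    rw [zv]
    linear_combination Z (U.erase u) * e3 - e2

/-- the identity at the base vertex of the full torus -/
theorem identity {θ x : ℝ} (hx : 2 * x * cos θ = 1) (e0 : ZMod 3) :
    ∃ κ : Finset (Sym2 (V (ZMod L))) → ℝ,
      (∀ c, IsLoop c → s(proj L org, nb (proj L org) e0) ∈ c →
        |κ c| ≤ 1 ∧ (¬ NonContr L c → κ c = cos (θ * 5) ∨ κ c = cos (θ * 7))) ∧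
      ZZ IsLoop supp (w2 θ x) (univ.erase (proj L org)) =
        PP IsLoop supp univ (fun c => s(proj L org, nb (proj L org) e0) ∈ c)
          (fun c => x ^ (c.card - 1) * (κ c * ZZ IsLoop supp (w2 θ x) (univ \ supp c))) := by
  obtain ⟨Wc, h1, h2⟩ := returns θ x (ZZ IsLoop supp (w2 (L := L) θ x)) org e0
  refine ⟨fun c => cos (θ * (0 + Wc c : ℤ)), fun c c1 c2 => ⟨abs_cos_le_one _, fun hn => ?_⟩, ?_⟩
  · obtain ⟨m, F, e, r, r0, r1, r2⟩ := h1 c c1 c2
    have hcl : F m = F 0 := by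
      by_contra h; exact hn (r.nonContr h)
    have sp := turns_split r.2.1 e
    obtain ⟨k, rfl, hk⟩ := r.closed hcl
    rw [← r2] at sp
    have : Wc c = 5 ∨ Wc c = -5 ∨ Wc c = 7 ∨ Wc c = -7 := by
      rcases hk.total_cases with a | a <;> rcases tau_cases (e (-1)) (e 0) with b | b <;> omega
    simp only [zero_add]
    rcases this with a | a | a | a <;> rw [a] <;> simp
  · have a := ident_ind hx (univ.erase (proj L org)).card (univ.erase (proj L org)) org e0 0 le_rfl
      (Adm.base (notMem_erase _ _))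
    have b := h2 univ (univ.erase (proj L org)).card 0 (mem_univ _)
      (by rw [card_erase_of_mem (mem_univ _)]; omega)
    rw [← b]
    have hh : (fun v => if v ∈ univ.erase (proj L org) then (0 : ℝ) else 1) =
        fun v => if v = proj L org then 1 else 0 := by
      funext v
      by_cases h1 : v = proj L org <;> simp [h1]
    rw [hh] at a
    rw [a]; simp

end Pool.Agent.Lib.MP_4960b8_pr
end

-- part Pool.Agent.Lib.MP_4960b8_pr.Main
section

/-! From the identity to long loops. -/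

namespace Pool.Agent.Lib.MP_4960b8_pr

open Real Finset Classical

set_option linter.unusedSectionVars false

theorem angle {n : ℝ} (h0 : 0 < n) (h1 : n ≤ 1) :
    ∃ θ κ : ℝ, 0 < κ ∧ 2 * xc n * cos θ = 1 ∧ -2 * cos (θ * (2 : ℤ)) = -√(2 - n) ∧
      -2 * cos (θ * (8 : ℤ)) = 2 - n ^ 2 ∧ -2 * cos (θ * (-4 : ℤ)) = n ∧
      cos (θ * 5) ≤ -κ ∧ cos (θ * 7) ≤ -κ := by
  set s := Real.sqrt (2 - n) with hs
  have s2 : s ^ 2 = 2 - n := Real.sq_sqrt (by linarith)
  have s0 : 0 ≤ s := Real.sqrt_nonneg _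
  have s1 : 1 ≤ s := by nlinarith
  have s3 : s ≤ Real.sqrt 2 := Real.sqrt_le_sqrt (by linarith)
  have s4 : s ≤ 2 := by nlinarith
  have hpi := Real.pi_pos
  set φ := arccos (s / 2) with hφ
  have c2 : cos φ = s / 2 := Real.cos_arccos (by linarith) (by linarith)
  have p1 : φ ≤ π / 3 := by
    have := Real.arccos_le_arccos (show (1 : ℝ) / 2 ≤ s / 2 by linarith)
    rwa [← Real.cos_pi_div_three, Real.arccos_cos (by linarith) (by linarith)] at this
  have p2 : π / 4 ≤ φ := by
    have := Real.arccos_le_arccos (show s / 2 ≤ Real.sqrt 2 / 2 by linarith)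
    rwa [← Real.cos_pi_div_four, Real.arccos_cos (by linarith) (by linarith)] at this
  have c1 : 0 < cos (φ / 2) := Real.cos_pos_of_mem_Ioo ⟨by linarith, by linarith⟩
  have c1' : (2 * cos (φ / 2)) ^ 2 = 2 + s := by
    have := cos_two_mul (φ / 2)
    rw [show 2 * (φ / 2) = φ by ring, c2] at this; nlinarith
  have c4 : cos (2 * φ) = -n / 2 := by rw [cos_two_mul, c2]; nlinarith
  have c8 : cos (2 * (2 * φ)) = n ^ 2 / 2 - 1 := by rw [cos_two_mul, c4]; ring
  have c5 : cos (φ / 2 * 5) < 0 := Real.cos_neg_of_pi_div_two_lt_of_lt (by linarith) (by linarith)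
  have c7 : cos (φ / 2 * 7) < 0 := Real.cos_neg_of_pi_div_two_lt_of_lt (by linarith) (by linarith)
  refine ⟨φ / 2, min (-cos (φ / 2 * 5)) (-cos (φ / 2 * 7)), lt_min (by linarith) (by linarith),
    ?_, ?_, ?_, ?_, ?_, ?_⟩
  · unfold xc
    rw [← hs, ← c1', Real.sqrt_sq (by linarith)]
    field_simp
  · rw [show φ / 2 * ((2 : ℤ) : ℝ) = φ by push_cast; ring, c2]; ring
  · rw [show φ / 2 * ((8 : ℤ) : ℝ) = 2 * (2 * φ) by push_cast; ring, c8]; ring
  · rw [show φ / 2 * ((-4 : ℤ) : ℝ) = -(2 * φ) by push_cast; ring, cos_neg, c4]; ring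
  · linarith [min_le_left (-cos (φ / 2 * 5)) (-cos (φ / 2 * 7))]
  · linarith [min_le_right (-cos (φ / 2 * 5)) (-cos (φ / 2 * 7))]

theorem xc_pos (n : ℝ) : 0 < xc n := by
  unfold xc
  have := Real.sqrt_nonneg (2 - n)
  exact inv_pos.2 (Real.sqrt_pos.2 (by linarith))

/-- long essential loops -/
def Long (L r : ℕ) (c : Finset (Sym2 (V (ZMod L)))) : Prop :=
  r ≤ c.card ∧ (NonContr L c ∨ Surrounds L c)

/-- ordinary loop activities -/
noncomputable def w1 {L : ℕ} (n x : ℝ) (c : Finset (Sym2 (V (ZMod L)))) : ℝ := n * x ^ c.card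

variable {L : ℕ} [Fact (1 < L)]

theorem short_count (r : ℕ) {U : Finset (V (ZMod L))} {S : Finset (Finset (Sym2 (V (ZMod L))))}
    (hS : Cfg IsLoop supp U S) :
    (S.filter fun c => Surrounds L c ∧ c.card < r).card ≤ 4 * r + 4 := by
  have : (S.filter fun c => Surrounds L c ∧ c.card < r) ⊆
      (range (2 * r + 2) ×ˢ (univ : Finset Bool)).biUnion fun p =>
        S.filter fun c => proj L ((p.1 : ℤ), 0, p.2) ∈ supp c := by
    intro c hc
    obtain ⟨h1, h2, h3⟩ := mem_filter.1 hc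
    obtain ⟨t, b, ht, h⟩ := h2.ray
    exact mem_biUnion.2 ⟨(t, b), mem_product.2 ⟨mem_range.2 (by omega), mem_univ _⟩,
      mem_filter.2 ⟨h1, mem_supp.2 h⟩⟩
  have h2 := (card_le_card this).trans card_biUnion_le
  have h3 : ∑ p ∈ range (2 * r + 2) ×ˢ (univ : Finset Bool),
      (S.filter fun c => proj L ((p.1 : ℤ), 0, p.2) ∈ supp c).card ≤
      ∑ p ∈ range (2 * r + 2) ×ˢ (univ : Finset Bool), 1 := by
    apply sum_le_sum
    intro p _
    have := card_at_le_one hS (proj L ((p.1 : ℤ), 0, p.2))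
      (fun c => proj L ((p.1 : ℤ), 0, p.2) ∈ supp c) fun c h => h
    refine le_trans (le_of_eq ?_) this
    congr 1
    ext c; simp only [mem_filter]
  rw [sum_const, card_product, card_range, card_univ, Fintype.card_bool, smul_eq_mul] at h3
  omega

/-- absolute values of the modified activities -/
noncomputable def wa (n x : ℝ) (c : Finset (Sym2 (V (ZMod L)))) : ℝ :=
  (if NonContr L c then √(2 - n) else if Surrounds L c then 2 - n ^ 2 else n) * x ^ c.card

theorem w1_nonneg {n x : ℝ} (h0 : 0 < n) (x0 : 0 < x) (c : Finset (Sym2 (V (ZMod L)))) :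
    0 ≤ w1 n x c := by unfold w1; positivity

theorem w1_le_wa {n x : ℝ} (h0 : 0 < n) (h1 : n ≤ 1) (x0 : 0 < x)
    (c : Finset (Sym2 (V (ZMod L)))) : w1 n x c ≤ wa n x c := by
  unfold w1 wa
  apply mul_le_mul_of_nonneg_right _ (by positivity)
  split_ifs
  · exact Real.le_sqrt_of_sq_le (by nlinarith)
  · nlinarith
  · exact le_rfl

theorem wa_le {n x : ℝ} (h0 : 0 < n) (h1 : n ≤ 1) (x0 : 0 < x)
    (c : Finset (Sym2 (V (ZMod L)))) : wa n x c ≤ 2 / n * w1 n x c := by
  have : 2 / n * w1 n x c = 2 * x ^ c.card := by unfold w1; field_simp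
  rw [this]
  unfold wa
  apply mul_le_mul_of_nonneg_right _ (by positivity)
  split_ifs
  · exact Real.sqrt_le_iff.2 ⟨by norm_num, by nlinarith⟩
  · nlinarith
  · linarith

theorem aux2 {k κ a z z' y w w' : ℝ} (hk : k ≤ -κ) (hk' : |k| ≤ 1) (h0 : 0 < κ)
    (h1 : |a - z'| ≤ y) (hz : 0 ≤ z) (hz' : z ≤ z') (hw : 0 ≤ w) (hw' : w ≤ w') :
    w * (k * a) + κ * (w * z) ≤ w' * y := by
  have y0 : 0 ≤ y := (abs_nonneg _).trans h1
  have e1 : k * (a - z') ≤ y := by
    have := le_abs_self (k * (a - z'))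
    rw [abs_mul] at this
    nlinarith [abs_nonneg k, abs_nonneg (a - z')]
  have e2 : k * a + κ * z ≤ y := by nlinarith
  nlinarith

theorem root {n : ℝ} (h0 : 0 < n) (h1 : n ≤ 1) :
    ∃ C > 0, ∀ (L : ℕ) [Fact (1 < L)], ZZ IsLoop supp (w1 (L := L) n (xc n)) univ ≤
      C * YY IsLoop supp (wa n (xc n)) (NonContr L) univ := by
  obtain ⟨θ, κ, κ0, hx, a2, a8, a4, a5, a7⟩ := angle h0 h1
  have x0 := xc_pos n
  generalize xc n = x at *
  have nx : 0 < n * x := by positivity
  refine ⟨(n * x + 1) / (n * x) + 3 * ((n * x + 1) / κ) + 1, by positivity, ?_⟩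
  intro L _
  have w0 := w1_nonneg (L := L) h0 x0
  have w1a := w1_le_wa (L := L) h0 h1 x0
  have wa0 : ∀ c : Finset (Sym2 (V (ZMod L))), 0 ≤ wa n x c := fun c => (w0 c).trans (w1a c)
  have e2 : ∀ c : Finset (Sym2 (V (ZMod L))),
      w2 θ x c = if NonContr L c then - wa n x c else wa n x c := by
    intro c
    unfold w2 wa sig
    split_ifs
    · rw [a2]; ring
    · rw [a8]
    · rw [a4]
  have e3 : ∀ c : Finset (Sym2 (V (ZMod L))), |w2 θ x c| = wa n x c := by
    intro c; rw [e2]; split_ifs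
    · rw [abs_neg, abs_of_nonneg (wa0 c)]
    · exact abs_of_nonneg (wa0 c)
  have B1 : ∀ U, |ZZ IsLoop supp (w2 θ x) U - Z0 IsLoop supp (wa n x) (NonContr L) U| ≤
      YY IsLoop supp (wa n x) (NonContr L) U := by
    intro U
    have : Z0 IsLoop supp (wa n x) (NonContr L) U = Z0 IsLoop supp (w2 θ x) (NonContr L) U := by
      unfold Z0
      congr 1
      funext c
      rw [e2]; split_ifs <;> rfl
    rw [this, ZZ_split _ (NonContr L), add_sub_cancel_left]
    refine (abs_sum_le_sum_abs _ _).trans (sum_le_sum fun S _ => ?_)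
    split_ifs
    · rw [abs_prod]; simp only [e3]; exact le_rfl
    · simp
  have B2 : ∀ U, |ZZ IsLoop supp (w2 θ x) U| ≤ ZZ IsLoop supp (wa (L := L) n x) U := by
    intro U
    refine (abs_sum_le_sum_abs _ _).trans (sum_le_sum fun S _ => ?_)
    rw [abs_prod]; simp only [e3]; exact le_rfl
  obtain ⟨ws, hws⟩ : ∃ ws : Finset (Sym2 (V (ZMod L))) → ℝ,
      ws = fun c => if NonContr L c then 0 else w1 n x c := ⟨_, rfl⟩
  have ws0 : ∀ c, 0 ≤ ws c := fun c => by simp only [hws]; split_ifs; exacts [le_rfl, w0 c]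
  have B3 : ∀ U, ZZ IsLoop supp ws U ≤ Z0 IsLoop supp (wa n x) (NonContr L) U := by
    intro U
    refine SS_le fun S _ => prod_le_prod (fun c _ => ws0 c) fun c _ => ?_
    simp only [hws]; split_ifs; exacts [le_rfl, w1a c]
  have main : ∀ e0, n * x * ZZ IsLoop supp ws (univ.erase (proj L org)) +
      κ * NN IsLoop supp ws (fun c => s(proj L org, nb (proj L org) e0) ∈ c) univ ≤
      (n * x + 1) * YY IsLoop supp (wa n x) (NonContr L) univ := by
    intro e0
    obtain ⟨k, k1, k2⟩ := identity (L := L) hx e0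
    have f1 := mark_at_le supp_ne wa0 (NonContr L) univ (proj L org)
      (fun c => s(proj L org, nb (proj L org) e0) ∈ c)
      (fun c h => mem_supp.2 ⟨_, h, Sym2.mem_mk_left _ _⟩)
    have f2 : n * x * ZZ IsLoop supp (w2 θ x) (univ.erase (proj L org)) +
        κ * NN IsLoop supp ws (fun c => s(proj L org, nb (proj L org) e0) ∈ c) univ ≤
        YY IsLoop supp (wa n x) (NonContr L) univ := by
      refine le_trans ?_ f1
      unfold NN
      rw [k2, ← PP_mul, ← PP_mul, ← PP_add]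
      apply PP_le
      intro c c1 _ h2
      have g1 : n * x * x ^ (c.card - 1) = w1 n x c := by
        unfold w1
        rw [mul_assoc, ← pow_succ', Nat.sub_add_cancel (card_pos_loop c1)]
      obtain ⟨k3, k4⟩ := k1 c c1 h2
      rw [← mul_assoc, g1]
      by_cases h3 : NonContr L c
      · have : ws c = 0 := by simp only [hws, h3, if_true]
        rw [if_pos h3, this, zero_mul, mul_zero, add_zero]
        refine (mul_le_mul_of_nonneg_left (le_abs_self _) (w0 c)).trans ?_
        refine mul_le_mul (w1a c) ?_ (abs_nonneg _) (wa0 c)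
        rw [abs_mul]
        exact (mul_le_of_le_one_left (abs_nonneg _) k3).trans (B2 _)
      · have : ws c = w1 n x c := by simp only [hws, h3, if_false]
        rw [if_neg h3, this]
        have k5 : k c ≤ -κ := by rcases k4 h3 with h | h <;> rw [h] <;> assumption
        exact aux2 k5 k3 κ0 (B1 _) (ZZ_pos ws0 _).le (B3 _) (w0 c) (w1a c)
    have f3 := (abs_le.1 (B1 (univ.erase (proj L org)))).1
    have f4 := B3 (univ.erase (proj L org))
    have f5 := YY_mono_dom (ok := IsLoop) (supp := supp) wa0 (NonContr L)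
      (subset_univ (univ.erase (proj L org)))
    have f6 : ZZ IsLoop supp ws (univ.erase (proj L org)) ≤
        ZZ IsLoop supp (w2 θ x) (univ.erase (proj L org)) +
          YY IsLoop supp (wa n x) (NonContr L) univ := by linarith
    have f7 := mul_le_mul_of_nonneg_left f6 nx.le
    linarith
  have m3 : NN IsLoop supp ws (fun c => proj L org ∈ supp c) univ ≤
      ∑ e0 : ZMod 3, NN IsLoop supp ws (fun c => s(proj L org, nb (proj L org) e0) ∈ c) univ := by
    unfold NN
    apply PP_union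
    · exact fun c => mul_nonneg (ws0 c) (ZZ_pos ws0 _).le
    · intro c c1 _ c3
      obtain ⟨m, f, hf⟩ := c1
      obtain ⟨t, ht⟩ := (hf.on _).1 (mem_supp.1 c3)
      obtain ⟨e0, he⟩ := hf.2.1 t
      exact ⟨e0, mem_univ _, (hf.2.2.2 _).2 ⟨t, by rw [ht, he]⟩⟩
  have m5 := ZZ_vertex supp_ne univ (proj L org) ws
  have m6 : ZZ IsLoop supp (w1 (L := L) n x) univ =
      ZZ IsLoop supp ws univ + YY IsLoop supp (w1 n x) (NonContr L) univ := by
    rw [hws]; exact ZZ_split _ _ _
  have m7 : YY IsLoop supp (w1 n x) (NonContr L) univ ≤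
      YY IsLoop supp (wa n x) (NonContr L) univ := SS_le fun S _ => by
    split_ifs; exacts [prod_le_prod (fun c _ => w0 c) fun c _ => w1a c, le_rfl]
  have z2 := ZZ_pos (ok := IsLoop) (supp := supp) ws0 (univ.erase (proj L org))
  have N0 := fun e0 => NN_nonneg (ok := IsLoop) (supp := supp) ws0
    (fun c => s(proj L org, nb (proj L org) e0) ∈ c) univ
  generalize YY IsLoop supp (wa (L := L) n x) (NonContr L) univ = Y at *
  have m1 : ZZ IsLoop supp ws (univ.erase (proj L org)) ≤ (n * x + 1) / (n * x) * Y := by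
    have := main 0
    have h2 := mul_nonneg κ0.le (N0 0)
    rw [div_mul_eq_mul_div, le_div_iff₀ nx]
    linarith
  have m2 : ∀ e0, NN IsLoop supp ws (fun c => s(proj L org, nb (proj L org) e0) ∈ c) univ ≤
      (n * x + 1) / κ * Y := by
    intro e0
    have := main e0
    have h2 := mul_pos nx z2
    rw [div_mul_eq_mul_div, le_div_iff₀ κ0]
    linarith
  have m4 := sum_le_card_nsmul univ _ _ fun e0 _ => m2 e0
  rw [card_univ, ZMod.card, nsmul_eq_mul] at m4
  push_cast at m4
  linarith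

/-- complements of loop configurations -/
def Dom (U : Finset (V (ZMod L))) : Prop := ∃ S, Cfg IsLoop supp univ S ∧ U = freeOf L S

theorem mem_freeOf {S : Finset (Finset (Sym2 (V (ZMod L))))} {v : V (ZMod L)} :
    v ∈ freeOf L S ↔ ∀ c ∈ S, v ∉ supp c := by
  simp [freeOf, mem_supp]

theorem dom_univ : Dom (univ : Finset (V (ZMod L))) :=
  ⟨∅, cfg_empty _, by ext v; simp [mem_freeOf]⟩

theorem dom_sdiff (U : Finset (V (ZMod L))) (c : Finset (Sym2 (V (ZMod L)))) (h : Dom U)
    (h1 : IsLoop c) (h2 : supp c ⊆ U) : Dom (U \ supp c) := by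
  obtain ⟨S, hS, rfl⟩ := h
  have hd : ∀ b ∈ S, Disjoint (supp c) (supp b) := fun b hb =>
    disjoint_left.2 fun v hv => mem_freeOf.1 (h2 hv) b hb
  refine ⟨insert c S, ⟨fun a ha => ⟨?_, subset_univ _⟩, fun a ha b hb hab => ?_⟩, ?_⟩
  · rcases mem_insert.1 ha with rfl | h
    exacts [h1, (hS.1 a h).1]
  · rcases mem_insert.1 ha with rfl | ha' <;> rcases mem_insert.1 hb with rfl | hb'
    · exact absurd rfl hab
    · exact hd b hb'
    · exact (hd a ha').symm
    · exact hS.2 a ha' b hb' hab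
  · ext v
    simp only [mem_sdiff, mem_freeOf, mem_insert, forall_eq_or_imp]
    exact and_comm

theorem core {n : ℝ} (h0 : 0 < n) (h1 : n ≤ 1) (r : ℕ) :
    ∃ q > 0, ∀ (L : ℕ) [Fact (1 < L)], r ≤ L →
      (∀ U, Dom U →
        NN IsLoop supp (w1 n (xc n)) (Long L r) U ≤ n / 4 * ZZ IsLoop supp (w1 n (xc n)) U) →
      q * ZZ IsLoop supp (w1 (L := L) n (xc n)) univ ≤
        NN IsLoop supp (w1 n (xc n)) (NonContr L) univ := by
  obtain ⟨C, C0, hC⟩ := root h0 h1
  have x0 := xc_pos n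
  generalize xc n = x at *
  obtain ⟨lam, hlam⟩ : ∃ lam : ℝ, lam = 2 / n := ⟨_, rfl⟩
  have ln : lam * n = 2 := by rw [hlam]; field_simp
  have l1 : 1 ≤ lam := by rw [hlam, le_div_iff₀ h0]; linarith
  obtain ⟨A, hA⟩ : ∃ A : ℝ, A = lam ^ (4 * r + 4) := ⟨_, rfl⟩
  have A1 : 1 ≤ A := hA ▸ one_le_pow₀ l1
  refine ⟨1 / (C * (2 * A * lam)), by positivity, ?_⟩
  intro L _ hr H1
  have w0 := w1_nonneg (L := L) h0 x0
  have w1a := w1_le_wa (L := L) h0 h1 x0
  have wa0 : ∀ c : Finset (Sym2 (V (ZMod L))), 0 ≤ wa n x c := fun c => (w0 c).trans (w1a c)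
  have wal : ∀ c : Finset (Sym2 (V (ZMod L))), wa n x c ≤ lam * w1 n x c :=
    hlam ▸ wa_le h0 h1 x0
  obtain ⟨wl, hwl⟩ : ∃ wl : Finset (Sym2 (V (ZMod L))) → ℝ,
      wl = fun c => if Long L r c then lam * w1 n x c else w1 n x c := ⟨_, rfl⟩
  have wl1 : ∀ c, w1 n x c ≤ wl c := fun c => by
    simp only [hwl]; split_ifs
    · exact le_mul_of_one_le_left (w0 c) l1
    · exact le_rfl
  have wl0 : ∀ c, 0 ≤ wl c := fun c => (w0 c).trans (wl1 c)
  have T : ∀ U, Dom U → ZZ IsLoop supp wl U ≤ 2 * ZZ IsLoop supp (w1 n x) U := by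
    rw [hwl]
    refine tilt supp_ne w0 _ l1 dom_sdiff fun U hU => ?_
    have h2 : 2 * lam * (n / 4 * ZZ IsLoop supp (w1 n x) U) = ZZ IsLoop supp (w1 n x) U := by
      linear_combination (ZZ IsLoop supp (w1 n x) U / 2) * ln
    exact (mul_le_mul_of_nonneg_left (H1 U hU) (by linarith)).trans h2.le
  have b1 : ∀ c, wa n x c ≤ (if Surrounds L c ∧ c.card < r then lam else 1) * wl c := by
    intro c
    by_cases c1 : Long L r c
    · have : wl c = lam * w1 n x c := by simp only [hwl, c1, if_true]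
      refine ((wal c).trans this.ge).trans (le_mul_of_one_le_left (wl0 c) ?_)
      split_ifs; exacts [l1, le_rfl]
    · have : wl c = w1 n x c := by simp only [hwl, c1, if_false]
      rw [this]
      split_ifs with c2
      · exact wal c
      · have c3 : ¬ NonContr L c := fun h => c1 ⟨hr.trans h.le_card, Or.inl h⟩
        have c4 : ¬ Surrounds L c := fun h => c1 ⟨not_lt.1 fun h' => c2 ⟨h, h'⟩, Or.inr h⟩
        unfold wa w1
        rw [if_neg c3, if_neg c4, one_mul]
  have up : ∀ U, Dom U → ZZ IsLoop supp (wa n x) U ≤ 2 * A * ZZ IsLoop supp (w1 (L := L) n x) U := by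
    intro U hU
    have : ZZ IsLoop supp (wa n x) U ≤ A * ZZ IsLoop supp wl U := by
      unfold ZZ
      rw [← SS_mul]
      refine SS_le fun S hS => (prod_le_prod (fun c _ => wa0 c) fun c _ => b1 c).trans ?_
      rw [prod_mul_distrib, prod_ite, prod_const, prod_const_one, mul_one, hA]
      exact mul_le_mul_of_nonneg_right (pow_le_pow_right₀ l1 (short_count r hS))
        (prod_nonneg fun c _ => wl0 c)
    have h2 := mul_le_mul_of_nonneg_left (T U hU) (by linarith : 0 ≤ A)
    linarith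
  have e2 : NN IsLoop supp (wa n x) (NonContr L) univ ≤
      2 * A * lam * NN IsLoop supp (w1 n x) (NonContr L) univ := by
    unfold NN
    rw [← PP_mul]
    apply PP_le
    intro c c1 c2 _
    have := mul_le_mul (wal c) (up _ (dom_sdiff _ c dom_univ c1 c2)) (ZZ_pos wa0 _).le
      (mul_nonneg (by linarith) (w0 c))
    linarith
  have e3 := (hC L).trans (mul_le_mul_of_nonneg_left
    ((YY_le_NN supp_ne wa0 (NonContr L) univ).trans e2) C0.le)
  rw [div_mul_eq_mul_div, div_le_iff₀ (by positivity)]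
  linarith

theorem config_iff (U : Finset (V (ZMod L))) (S : Finset (Finset (Sym2 (V (ZMod L))))) :
    Config U S ↔ Cfg IsLoop supp U S := by
  unfold Config Cfg
  simp only [subset_iff, mem_supp, disjoint_left, not_and]

theorem prob_eq (n x : ℝ) (U : Finset (V (ZMod L))) (Q : Finset (Sym2 (V (ZMod L))) → Prop) :
    prob L n x U (fun S => ∃ c ∈ S, Q c) =
      SS IsLoop supp U (fun S => if ∃ c ∈ S, Q c then ∏ c ∈ S, w1 n x c else 0) /
        ZZ IsLoop supp (w1 n x) U := by
  have hw : ∀ S : Finset (Finset (Sym2 (V (ZMod L)))), weight n x S = ∏ c ∈ S, w1 n x c := by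
    intro S
    unfold weight w1
    rw [prod_mul_distrib, prod_const, prod_pow_eq_pow_sum, mul_comm]
  unfold prob ZZ SS
  simp only [sum_filter, hw, config_iff]
  congr 1
  apply sum_congr rfl
  intro S _
  by_cases h1 : Cfg IsLoop supp U S <;> by_cases h2 : ∃ c ∈ S, Q c <;> simp [h1, h2]

theorem long_loops {n : ℝ} (h0 : 0 < n) (h1 : n ≤ 1) :
    ∃ p > 0, ∀ r L₀ : ℕ, ∃ (L : ℕ) (_ : NeZero L), L₀ ≤ L ∧
      ∃ S₀ : Finset (Finset (Sym2 (V (ZMod L)))), Config univ S₀ ∧
        p ≤ prob L n (xc n) (freeOf L S₀)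
          (fun S => ∃ c ∈ S, r ≤ c.card ∧ (NonContr L c ∨ Surrounds L c)) := by
  by_contra H
  push Not at H
  obtain ⟨r1, L1, H1⟩ := H (n / 8) (by positivity)
  obtain ⟨q, q0, hq⟩ := core h0 h1 r1
  obtain ⟨r2, L2, H2⟩ := H (min (q / 4) (1 / 2)) (by positivity)
  obtain ⟨L, hL⟩ : ∃ L, L = L1 + L2 + r1 + r2 + 2 := ⟨_, rfl⟩
  have : Fact (1 < L) := ⟨by omega⟩
  have x0 := xc_pos n
  have w0 := w1_nonneg (L := L) h0 x0
  have conv : ∀ (r : ℕ) (p : ℝ), p ≤ 1 / 2 → (∀ S₀, Config univ S₀ →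
      prob L n (xc n) (freeOf L S₀)
        (fun S => ∃ c ∈ S, r ≤ c.card ∧ (NonContr L c ∨ Surrounds L c)) < p) →
      ∀ U, Dom U →
        NN IsLoop supp (w1 n (xc n)) (Long L r) U ≤ 2 * p * ZZ IsLoop supp (w1 n (xc n)) U := by
    intro r p hp h
    apply count_le supp_ne w0 _ hp dom_sdiff
    rintro U ⟨S₀, hS, rfl⟩
    have : prob L n (xc n) (freeOf L S₀) (fun S => ∃ c ∈ S, Long L r c) < p :=
      h S₀ ((config_iff _ _).2 hS)
    rw [prob_eq n (xc n) _ (Long L r), div_lt_iff₀ (ZZ_pos w0 _)] at this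
    exact this.le
  have e1 := hq L (by omega) fun U hU => by
    have := conv r1 (n / 8) (by linarith) (H1 L inferInstance (by omega)) U hU
    linarith
  have a := conv r2 _ (min_le_right _ _) (H2 L inferInstance (by omega)) univ dom_univ
  have b : NN IsLoop supp (w1 n (xc n)) (NonContr L) univ ≤
      NN IsLoop supp (w1 n (xc n)) (Long L r2) univ :=
    PP_mono (fun c => mul_nonneg (w0 c) (ZZ_pos w0 _).le)
      fun c _ _ h => ⟨le_trans (by omega) h.le_card, Or.inl h⟩
  have z := ZZ_pos (ok := IsLoop) (supp := supp) w0 univ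
  have := mul_le_mul_of_nonneg_right (min_le_left (q / 4) (1 / 2)) z.le
  have := mul_pos q0 z
  linarith

theorem Surrounds.not_nonContr {c : Finset (Sym2 (V (ZMod L)))} (h : Surrounds L c) :
    ¬ NonContr L c := by
  obtain ⟨m, F, hF, h0, -, -⟩ := h
  obtain ⟨e, hF⟩ := hF.rep
  exact hF.not_nonContr h0

theorem tilted {n : ℝ} (h0 : 0 < n) (h1 : n ≤ 1) :
    ∃ p > 0, ∀ (L : ℕ) [NeZero L], 2 ≤ L →
      p ≤ expect L n (xc n) (fun S => if ∃ c ∈ S, NonContr L c then
        ((2 - n ^ 2) / n) ^ (S.filter (Surrounds L)).card *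
          (√(2 - n) / n) ^ (S.filter (NonContr L)).card else 0) := by
  obtain ⟨C, C0, hC⟩ := root h0 h1
  refine ⟨1 / C, by positivity, ?_⟩
  intro L _ hL
  have : Fact (1 < L) := ⟨by omega⟩
  have x0 := xc_pos n
  have h := hC L
  generalize xc n = x at *
  have w0 := w1_nonneg (L := L) h0 x0
  have hw : ∀ S : Finset (Finset (Sym2 (V (ZMod L)))), weight n x S = ∏ c ∈ S, w1 n x c := by
    intro S
    unfold weight w1
    rw [prod_mul_distrib, prod_const, prod_pow_eq_pow_sum, mul_comm]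
  have ha : ∀ c : Finset (Sym2 (V (ZMod L))), wa n x c =
      ((if Surrounds L c then (2 - n ^ 2) / n else 1) * (if NonContr L c then √(2 - n) / n else 1)) *
        w1 n x c := by
    intro c
    unfold wa w1
    by_cases c1 : NonContr L c
    · rw [if_pos c1, if_pos c1, if_neg fun h => h.not_nonContr c1]; field_simp
    · rw [if_neg c1, if_neg c1]
      split_ifs <;> field_simp
  have e1 : expect L n x (fun S => if ∃ c ∈ S, NonContr L c then
        ((2 - n ^ 2) / n) ^ (S.filter (Surrounds L)).card *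
          (√(2 - n) / n) ^ (S.filter (NonContr L)).card else 0) =
      YY IsLoop supp (wa n x) (NonContr L) univ / ZZ IsLoop supp (w1 (L := L) n x) univ := by
    unfold expect YY ZZ SS
    simp only [sum_filter, hw, config_iff]
    congr 1
    apply sum_congr rfl
    intro S _
    split_ifs
    · simp only [ha, prod_mul_distrib, prod_ite, prod_const, one_pow, mul_one]
    · simp
    · rfl
  rw [e1, div_le_div_iff₀ C0 (ZZ_pos w0 _)]
  linarith

end Pool.Agent.Lib.MP_4960b8_pr
end
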