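import Pool.Agent.Lib.MP_4960b8_pr.Defs

-- part Pool.Agent.Lib.MP_4960b8_pr.Geom
section

/-! Angles on the plane hexagonal lattice. -/

namespace Pool.Agent.Lib.MP_4960b8_pr

open Complex Real

/-- `u` lies in the open half plane directed by `d`. -/
def hp (d u : ℂ) : Prop := 0 < (u * (starRingEnd ℂ) d).re

noncomputable def th (d u : ℂ) : ℝ := arg (u * (starRingEnd ℂ) d)

theorem abs_th_lt {d u : ℂ} (h : hp d u) : |th d u| < π / 2 := by
  unfold th
  exact Complex.abs_arg_lt_pi_div_two_iff.2 (Or.inl h)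

theorem arg_div_hp {d u w : ℂ} (hu : hp d u) (hw : hp d w) : arg (w / u) = th d w - th d u := by
  have hu0 : u * (starRingEnd ℂ) d ≠ 0 := by
    intro h; unfold hp at hu; rw [h] at hu; simp at hu
  have hw0 : w * (starRingEnd ℂ) d ≠ 0 := by
    intro h; unfold hp at hw; rw [h] at hw; simp at hw
  have hd : (starRingEnd ℂ) d ≠ 0 := fun h => hu0 (by rw [h, mul_zero])
  have e1 : w / u = (w * (starRingEnd ℂ) d) / (u * (starRingEnd ℂ) d) := by
    rw [mul_div_mul_right _ _ hd]
  have a1 := abs_lt.1 (abs_th_lt hu)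
  have a2 := abs_lt.1 (abs_th_lt hw)
  rw [e1, ← Complex.arg_coe_angle_toReal_eq_arg, Complex.arg_div_coe_angle hw0 hu0,
    ← Real.Angle.coe_sub]
  apply Real.Angle.toReal_coe_eq_self_iff.2
  unfold th at a1 a2
  constructor <;> linarith [a1.1, a1.2, a2.1, a2.2]

theorem hp_neg {d u : ℂ} (h : hp d u) : hp (-d) (-u) := by
  unfold hp at *; simpa using h

/-- integer coordinates -/
def cX (v : V ℤ) : ℤ := 3 * (v.1 + v.2.1) + (if v.2.2 = true then 2 else 0)
def cY (v : V ℤ) : ℤ := v.2.1 - v.1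

theorem pos_re (v : V ℤ) : (pos v).re = cX v := by
  simp [pos, cX]
  split_ifs <;> simp

theorem pos_im (v : V ℤ) : (pos v).im = cY v * Real.sqrt 3 := by
  simp [pos, cY]
  split_ifs <;> simp

theorem sq3 : Real.sqrt 3 * Real.sqrt 3 = 3 := Real.mul_self_sqrt (by norm_num)

theorem normSq_pos_sub (u v : V ℤ) :
    normSq (pos u - pos v) = (((cX u - cX v) ^ 2 + 3 * (cY u - cY v) ^ 2 : ℤ) : ℝ) := by
  rw [normSq_apply]
  simp only [sub_re, sub_im, pos_re, pos_im]
  push_cast
  have := sq3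
  linear_combination ((cY u : ℝ) - cY v) ^ 2 * this

theorem four_le_normSq {u v : V ℤ} (h : u ≠ v) : 4 ≤ normSq (pos u - pos v) := by
  rw [normSq_pos_sub]
  have : (4 : ℤ) ≤ (cX u - cX v) ^ 2 + 3 * (cY u - cY v) ^ 2 := by
    obtain ⟨i, j, b⟩ := u
    obtain ⟨i', j', b'⟩ := v
    simp only [cX, cY]
    set A := 3 * (i + j) + (if b = true then (2 : ℤ) else 0) -
      (3 * (i' + j') + (if b' = true then (2 : ℤ) else 0)) with hA
    set B := j - i - (j' - i') with hB
    have key : (2 ≤ B ∨ B ≤ -2) ∨ ((B = 1 ∨ B = -1) ∧ (1 ≤ A ∨ A ≤ -1)) ∨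
        (2 ≤ A ∨ A ≤ -2) := by
      have hne : ¬ (i = i' ∧ j = j' ∧ b = b') := by
        rintro ⟨h1, h2, h3⟩; exact h (by rw [h1, h2, h3])
      cases b <;> cases b' <;> simp at hA hne <;> omega
    rcases key with (k | k) | ⟨k | k, k' | k'⟩ | (k | k) <;> nlinarith [sq_nonneg A, sq_nonneg B]
  exact_mod_cast this

theorem pos_ne {u v : V ℤ} (h : u ≠ v) : pos u - pos v ≠ 0 := by
  intro h0
  have := four_le_normSq h
  rw [h0] at this; norm_num at this

theorem normSq_nb (v : V ℤ) (e : ZMod 3) : normSq (pos (nb v e) - pos v) = 4 := by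
  rw [normSq_pos_sub]
  obtain ⟨i, j, b⟩ := v
  have : (cX (nb (i, j, b) e) - cX (i, j, b)) ^ 2 + 3 * (cY (nb (i, j, b) e) - cY (i, j, b)) ^ 2
      = 4 := by
    cases b <;> by_cases h0 : e = 0 <;> by_cases h1 : e = 1 <;> simp [nb, h0, h1, cX, cY] <;> ring
  rw [this]; norm_num

theorem hp_key {A a b : ℂ} (ha : normSq a = 4) (hb : normSq b = 4) (hA : 4 ≤ normSq A)
    (hne : A - a ≠ 0) : hp (2 * A + b - a) A := by
  unfold hp
  have h1 := normSq_pos.2 hne
  have h2 := normSq_nonneg (A + b)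
  simp only [normSq_apply, sub_re, sub_im, add_re, add_im] at *
  simp
  nlinarith

theorem normSq_nb' (v : V ℤ) (e : ZMod 3) : normSq (pos v - pos (nb v e)) = 4 := by
  rw [← normSq_neg, neg_sub, normSq_nb]

/-- two vertex-disjoint edges: the four difference vectors lie in a half plane -/
theorem edge_edge {p y : V ℤ} {e e' : ZMod 3} (h1 : y ≠ p) (h2 : y ≠ nb p e)
    (h3 : nb y e' ≠ p) (h4 : nb y e' ≠ nb p e) :
    ∃ d, hp d (pos y - pos p) ∧ hp d (pos y - pos (nb p e)) ∧ hp d (pos (nb y e') - pos p) ∧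
      hp d (pos (nb y e') - pos (nb p e)) := by
  refine ⟨pos y + pos (nb y e') - pos p - pos (nb p e), ?_, ?_, ?_, ?_⟩
  · have := hp_key (normSq_nb p e) (normSq_nb y e') (four_le_normSq h1)
      (by have := pos_ne h2; intro h; apply this; linear_combination h)
    convert this using 1; ring
  · have := hp_key (normSq_nb' p e) (normSq_nb y e') (four_le_normSq h2)
      (by have := pos_ne h1; intro h; apply this; linear_combination h)
    convert this using 1; ring
  · have := hp_key (normSq_nb p e) (normSq_nb' y e') (four_le_normSq h3)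
      (by have := pos_ne h4; intro h; apply this; linear_combination h)
    convert this using 1; ring
  · have := hp_key (normSq_nb' p e) (normSq_nb' y e') (four_le_normSq h4)
      (by have := pos_ne h3; intro h; apply this; linear_combination h)
    convert this using 1; ring

theorem point_edge {p y : V ℤ} {e' : ZMod 3} (h1 : y ≠ p) (h3 : nb y e' ≠ p) :
    ∃ d, hp d (pos y - pos p) ∧ hp d (pos (nb y e') - pos p) := by
  refine ⟨pos y - pos p, ?_, ?_⟩
  · have := four_le_normSq h1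
    unfold hp
    rw [mul_conj, ofReal_re]; linarith
  · have a1 := four_le_normSq h1
    have a2 := four_le_normSq h3
    have a3 := normSq_nb y e'
    unfold hp
    simp only [normSq_apply, sub_re, sub_im] at *
    simp
    nlinarith

/-- turn (in units of `π / 3`) when edge type `e` is followed by `e'` -/
def tau (e e' : ZMod 3) : ℤ := if e' = e + 1 then -1 else 1

theorem tau_cases (e e' : ZMod 3) : tau e e' = 1 ∨ tau e e' = -1 := by
  unfold tau; split_ifs <;> simp

theorem tau_swap : ∀ {e e' : ZMod 3}, e ≠ e' → tau e' e = - tau e e' := by decide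

theorem tau_third : ∀ {e e' e'' : ZMod 3}, e ≠ e' → e ≠ e'' → e' ≠ e'' →
    tau e e'' = - tau e e' := by decide

theorem tau_third' : ∀ {e e' e'' : ZMod 3}, e ≠ e' → e ≠ e'' → e' ≠ e'' →
    tau e'' e' = - tau e e' := by decide

noncomputable def zt (t : ℤ) : ℂ := (1 + t * (Real.sqrt 3 : ℂ) * I) / 2

theorem corner_eq (v : V ℤ) {e e' : ZMod 3} (h : e ≠ e') :
    pos (nb v e') - pos v = zt (tau e e') * (pos v - pos (nb v e)) := by
  obtain ⟨i, j, b⟩ := v
  have := sq3
  have h3 : ∀ e : ZMod 3, e = 0 ∨ e = 1 ∨ e = 2 := by decide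
  have d1 : (1 : ZMod 3) ≠ 0 := by decide
  have d2 : (2 : ZMod 3) ≠ 0 := by decide
  have d3 : (2 : ZMod 3) ≠ 1 := by decide
  have t01 : tau 0 1 = -1 := by decide
  have t02 : tau 0 2 = 1 := by decide
  have t10 : tau 1 0 = 1 := by decide
  have t12 : tau 1 2 = -1 := by decide
  have t20 : tau 2 0 = -1 := by decide
  have t21 : tau 2 1 = 1 := by decide
  rcases h3 e with rfl | rfl | rfl <;> rcases h3 e' with rfl | rfl | rfl <;>
    first
    | exact absurd rfl h
    | (cases b <;> apply Complex.ext <;>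
        simp [zt, nb, d1, d2, d3, t01, t02, t10, t12, t20, t21, pos_re, pos_im, cX, cY] <;>
        nlinarith)

theorem arg_of {z : ℂ} {r θ : ℝ} (hr : 0 < r) (h1 : -π < θ) (h2 : θ ≤ π)
    (hre : z.re = r * Real.cos θ) (him : z.im = r * Real.sin θ) : arg z = θ := by
  have : z = r * (Complex.cos θ + Complex.sin θ * I) := by
    apply Complex.ext
    · simp [hre, Complex.cos_ofReal_re, Complex.sin_ofReal_im]
    · simp [him, Complex.cos_ofReal_im, Complex.sin_ofReal_re]
  rw [this]
  exact Complex.arg_mul_cos_add_sin_mul_I hr ⟨h1, h2⟩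

theorem zt_args {t : ℤ} (ht : t = 1 ∨ t = -1) :
    arg (1 + zt t) = t * π / 6 ∧ arg (zt t / (1 + zt t)) = t * π / 6 ∧
      arg (-1 / zt t) = t * (2 * π / 3) ∧ arg (1 / (1 + zt t)) = - (t * π / 6) ∧
      zt t ≠ 0 ∧ 1 + zt t ≠ 0 := by
  have s3 := sq3
  have sp : 0 < Real.sqrt 3 := Real.sqrt_pos.2 (by norm_num)
  have hpi := Real.pi_pos
  have n1 : zt t ≠ 0 := by
    intro h; have := congrArg Complex.re h; simp [zt] at this
  have n2 : 1 + zt t ≠ 0 := by
    intro h; have := congrArg Complex.re h; simp [zt] at this; linarith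
  have e2 : zt t / (1 + zt t) = (1 + zt t) / 3 := by
    field_simp
    rcases ht with rfl | rfl <;> apply Complex.ext <;> simp [zt, pow_two] <;> nlinarith
  have e3 : -1 / zt t = zt t - 1 := by
    field_simp
    rcases ht with rfl | rfl <;> apply Complex.ext <;> simp [zt] <;> nlinarith
  have e4 : 1 / (1 + zt t) = (2 - zt t) / 3 := by
    field_simp
    rcases ht with rfl | rfl <;> apply Complex.ext <;> simp [zt] <;> nlinarith
  have c23 : Real.cos (2 * π / 3) = -1 / 2 := by
    rw [show 2 * π / 3 = π - π / 3 by ring, Real.cos_pi_sub, Real.cos_pi_div_three]; ring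
  have s23 : Real.sin (2 * π / 3) = Real.sqrt 3 / 2 := by
    rw [show 2 * π / 3 = π - π / 3 by ring, Real.sin_pi_sub, Real.sin_pi_div_three]
  refine ⟨?_, ?_, ?_, ?_, n1, n2⟩
  · rcases ht with rfl | rfl
    · apply arg_of sp (by push_cast; linarith) (by push_cast; linarith) <;>
        simp [zt] <;> nlinarith
    · apply arg_of sp (by push_cast; linarith) (by push_cast; linarith) <;>
        simp [zt, neg_div] <;> nlinarith
  · rw [e2]
    rcases ht with rfl | rfl
    · apply arg_of (r := Real.sqrt 3 / 3) (by positivity) (by push_cast; linarith)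
        (by push_cast; linarith) <;> simp [zt] <;> nlinarith
    · apply arg_of (r := Real.sqrt 3 / 3) (by positivity) (by push_cast; linarith)
        (by push_cast; linarith) <;> simp [zt, neg_div] <;> nlinarith
  · rw [e3]
    rcases ht with rfl | rfl
    · apply arg_of (r := 1) (by positivity) (by push_cast; linarith)
        (by push_cast; linarith) <;> simp [zt, c23, s23] <;> nlinarith
    · apply arg_of (r := 1) (by positivity) (by push_cast; linarith)
        (by push_cast; linarith) <;> simp [zt, c23, s23, neg_div] <;> nlinarith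
  · rw [e4]
    rcases ht with rfl | rfl
    · apply arg_of (r := Real.sqrt 3 / 3) (by positivity) (by push_cast; linarith)
        (by push_cast; linarith) <;> simp [zt, neg_div] <;> nlinarith
    · apply arg_of (r := Real.sqrt 3 / 3) (by positivity) (by push_cast; linarith)
        (by push_cast; linarith) <;> simp [zt, neg_div] <;> nlinarith

/-- angles at a corner `y = nb v e`, `v`, `z = nb v e'` -/
theorem corner {y v z : V ℤ} {e e' : ZMod 3} (hy : y = nb v e) (hz : z = nb v e') (h : e ≠ e') :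
    arg ((pos z - pos y) / (pos v - pos y)) = tau e e' * π / 6 ∧
    arg ((pos z - pos v) / (pos z - pos y)) = tau e e' * π / 6 ∧
    arg ((pos y - pos v) / (pos z - pos v)) = tau e e' * (2 * π / 3) ∧
    arg ((pos v - pos y) / (pos z - pos y)) = - (tau e e' * π / 6) := by
  have hc := corner_eq v h
  rw [← hy, ← hz] at hc
  have hD : pos v - pos y ≠ 0 := pos_ne (by rw [hy]; exact (nb_ne v e).symm)
  obtain ⟨a1, a2, a3, a4, n1, n2⟩ := zt_args (tau_cases e e')
  have hzy : pos z - pos y = (1 + zt (tau e e')) * (pos v - pos y) := by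
    linear_combination hc
  refine ⟨?_, ?_, ?_, ?_⟩
  · rw [hzy, mul_div_cancel_right₀ _ hD, a1]
  · rw [hzy, hc, mul_div_mul_right _ _ hD, a2]
  · rw [hc, show pos y - pos v = -1 * (pos v - pos y) by ring, mul_div_mul_right _ _ hD, a3]
  · rw [hzy, ← a4]; congr 1; field_simp

end Pool.Agent.Lib.MP_4960b8_pr
end

-- part Pool.Agent.Lib.MP_4960b8_pr.Wind
section

/-! Discrete winding numbers and the Hopf turning theorem on the hexagonal lattice. -/

namespace Pool.Agent.Lib.MP_4960b8_pr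

open Complex Real Finset

def Path {R : Type} [Ring R] (F : ℤ → V R) (e : ℤ → ZMod 3) : Prop :=
  ∀ t, F (t + 1) = nb (F t) (e t)

theorem Path.back {R : Type} [Ring R] {F : ℤ → V R} {e : ℤ → ZMod 3} (h : Path F e) (t : ℤ) :
    F t = nb (F (t + 1)) (e t) := by rw [h t, nb_nb]

theorem var_succ (p : ℂ) (F : ℤ → V ℤ) (s : ℤ) (k : ℕ) :
    var p F s (k + 1) =
      var p F s k + arg ((pos (F (s + k + 1)) - p) / (pos (F (s + k)) - p)) := by
  unfold var; rw [sum_range_succ]

theorem var_add (p : ℂ) (F : ℤ → V ℤ) (s : ℤ) (k l : ℕ) :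
    var p F s (k + l) = var p F s k + var p F (s + k) l := by
  unfold var; rw [sum_range_add]
  congr 1
  apply sum_congr rfl
  intro t _
  push_cast
  rw [← add_assoc]

theorem var_succ' (p : ℂ) (F : ℤ → V ℤ) (s : ℤ) (k : ℕ) :
    var p F s (k + 1) = arg ((pos (F (s + 1)) - p) / (pos (F s) - p)) + var p F (s + 1) k := by
  rw [add_comm k 1, var_add]
  simp [var]

theorem abs_var_le (p : ℂ) (F : ℤ → V ℤ) (s : ℤ) (k : ℕ) : |var p F s k| ≤ k * π := by
  induction k with
  | zero => simp [var]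
  | succ k ih =>
    rw [var_succ]
    have := Complex.abs_arg_le_pi ((pos (F (s + k + 1)) - p) / (pos (F (s + k)) - p))
    have h2 := abs_add_le (var p F s k)
      (arg ((pos (F (s + k + 1)) - p) / (pos (F (s + k)) - p)))
    push_cast; linarith

theorem var_tel {d p : ℂ} {F : ℤ → V ℤ} {s : ℤ} {k : ℕ}
    (h : ∀ t : ℤ, s ≤ t → t ≤ s + k → hp d (pos (F t) - p)) :
    var p F s k = th d (pos (F (s + k)) - p) - th d (pos (F s) - p) := by
  induction k with
  | zero => simp [var]
  | succ k ih =>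
    rw [var_succ, ih (fun t h1 h2 => h t h1 (by push_cast; omega)),
      arg_div_hp (h (s + k) (by omega) (by push_cast; omega))
        (h (s + k + 1) (by omega) (by push_cast; omega))]
    push_cast
    rw [← add_assoc]; ring

theorem strip {F : ℤ → V ℤ} {e : ℤ → ZMod 3} (hF : Path F e) {p q : V ℤ} {ε : ZMod 3}
    (hq : q = nb p ε) {s : ℤ} {k : ℕ}
    (h : ∀ t : ℤ, s ≤ t → t ≤ s + k → F t ≠ p ∧ F t ≠ q) :
    var (pos q) F s k - var (pos p) F s k =
      arg ((pos (F (s + k)) - pos q) / (pos (F (s + k)) - pos p)) -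
        arg ((pos (F s) - pos q) / (pos (F s) - pos p)) := by
  induction k with
  | zero => simp [var]
  | succ k ih =>
    have i1 := ih (fun t h1 h2 => h t h1 (by push_cast; omega))
    obtain ⟨a1, a2⟩ := h (s + k) (by omega) (by push_cast; omega)
    obtain ⟨a3, a4⟩ := h (s + k + 1) (by omega) (by push_cast; omega)
    rw [hF] at a3 a4
    rw [hq] at a2 a4
    obtain ⟨d, d1, d2, d3, d4⟩ := edge_edge a1 a2 a3 a4
    rw [← hF, ← hq] at *
    rw [var_succ, var_succ]
    push_cast
    rw [← add_assoc, arg_div_hp d2 d4, arg_div_hp d1 d3, arg_div_hp d3 d4]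
    rw [arg_div_hp d1 d2] at i1
    linarith

theorem arg_neg_div (a b c d : ℂ) : arg ((a - b) / (c - d)) = arg ((b - a) / (d - c)) := by
  rw [← neg_div_neg_eq, neg_sub, neg_sub]

/-- sum of the turns at the vertices `s + 1, …, s + k` -/
def turns (e : ℤ → ZMod 3) (s : ℤ) (k : ℕ) : ℤ := ∑ t ∈ range k, tau (e (s + t)) (e (s + t + 1))

theorem turns_succ (e : ℤ → ZMod 3) (s : ℤ) (k : ℕ) :
    turns e s (k + 1) = turns e s k + tau (e (s + k)) (e (s + k + 1)) := by
  unfold turns; rw [sum_range_succ]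

theorem turns_add (e : ℤ → ZMod 3) (s : ℤ) (k l : ℕ) :
    turns e s (k + l) = turns e s k + turns e (s + k) l := by
  unfold turns; rw [sum_range_add]
  congr 1
  apply sum_congr rfl
  intro t _
  push_cast
  rw [← add_assoc]

theorem turns_succ' (e : ℤ → ZMod 3) (s : ℤ) (k : ℕ) :
    turns e s (k + 1) = tau (e s) (e (s + 1)) + turns e (s + 1) k := by
  rw [add_comm k 1, turns_add]
  simp [turns]

theorem hopf {F : ℤ → V ℤ} {e : ℤ → ZMod 3} (hF : Path F e) (hne : ∀ t, e t ≠ e (t + 1))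
    {s : ℤ} {k : ℕ} (h : ∀ a b : ℤ, s ≤ a → a < b → b ≤ s + k + 1 → F a ≠ F b) :
    (turns e s k : ℝ) * π / 3 = var (pos (F s)) F (s + 1) k + var (pos (F (s + k + 1))) F s k := by
  induction k with
  | zero => simp [var, turns]
  | succ k ih =>
    have i1 := ih (fun a b h1 h2 h3 => h a b h1 h2 (by push_cast; omega))
    have st := strip hF (hF (s + k + 1)) (s := s) (k := k) (fun t h1 h2 =>
      ⟨h t _ h1 (by omega) (by push_cast; omega), h t _ h1 (by omega) (by push_cast; omega)⟩)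
    obtain ⟨c1, c2, -, -⟩ := corner (hF.back (s + k)) (hF (s + k + 1)) (hne (s + k))
    rw [turns_succ, var_succ, var_succ]
    push_cast
    rw [arg_neg_div] at c1 c2
    rw [show s + 1 + k + 1 = s + k + 1 + 1 by ring, show s + 1 + k = s + k + 1 by ring,
      show s + (k + 1) + 1 = s + k + 1 + 1 by ring, c2, arg_neg_div]
    rw [c1] at st
    linarith

section closed

variable {F : ℤ → V ℤ} {e : ℤ → ZMod 3} {m : ℕ}

/-- a simple closed path of length `m + 3` in the plane -/
structure Closed (F : ℤ → V ℤ) (e : ℤ → ZMod 3) (m : ℕ) : Prop where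
  path : Path F e
  ne : ∀ t, e t ≠ e (t + 1)
  per : ∀ t, F (t + m + 3) = F t
  eper : ∀ t, e (t + m + 3) = e t
  inj : ∀ a b : ℤ, a < b → b < a + m + 3 → F a ≠ F b

noncomputable def UU (F : ℤ → V ℤ) (e : ℤ → ZMod 3) (m : ℕ) (s : ℤ) : ℝ :=
  var (pos (F s)) F (s + 1) (m + 1) + tau (e (s - 1)) (e s) * π / 3

theorem Closed.UU_succ (h : Closed F e m) (s : ℤ) : UU F e m (s + 1) = UU F e m s := by
  have st := strip h.path (h.path s) (s := s + 1 + 1) (k := m) (fun t h1 h2 =>
    ⟨(h.inj s t (by omega) (by omega)).symm, (h.inj (s + 1) t (by omega) (by omega)).symm⟩)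
  have hb := h.path.back (s - 1)
  have hn := h.ne (s - 1)
  rw [sub_add_cancel] at hb hn
  obtain ⟨c1, c2, -, -⟩ := corner hb (h.path s) hn
  obtain ⟨d1, d2, -, -⟩ := corner (h.path.back s) (h.path (s + 1)) (h.ne s)
  unfold UU
  rw [var_succ, var_succ' (pos (F s))]
  have p1 : F (s + 1 + 1 + m) = F (s - 1) := by rw [← h.per (s - 1)]; congr 1; ring
  have p2 : F (s + 1 + 1 + m + 1) = F s := by rw [← h.per s]; congr 1; ring
  rw [p1] at st
  rw [p1, p2, add_sub_cancel_right]
  rw [arg_neg_div] at c1 c2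
  rw [c1, d2] at st
  rw [c2, d1]
  linarith

theorem Closed.UU_const (h : Closed F e m) (s : ℤ) : UU F e m s = UU F e m 0 := by
  induction s using Int.induction_on with
  | zero => rfl
  | succ s ih => rw [h.UU_succ, ih]
  | pred s ih => rw [← ih, ← h.UU_succ (-(s : ℤ) - 1), sub_add_cancel]

/-- total turning is twice `UU` -/
theorem Closed.total (h : Closed F e m) :
    (turns e (-1) (m + 3) : ℝ) * π / 3 = 2 * UU F e m 0 := by
  have hp := hopf h.path h.ne (s := 0) (k := m + 1)
    (fun a b h1 h2 h3 => h.inj a b h2 (by push_cast at h3; omega))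
  have u1 := h.UU_const (-1)
  have p1 : F (0 + ((m + 1 : ℕ) : ℤ) + 1) = F (-1) := by
    rw [← h.per (-1)]; congr 1; push_cast; ring
  have p2 : e (0 + ((m + 1 : ℕ) : ℤ)) = e (-1 - 1) := by
    rw [← h.eper (-1 - 1)]; congr 1; push_cast; ring
  have p3 : e (0 + ((m + 1 : ℕ) : ℤ) + 1) = e (-1) := by
    rw [← h.eper (-1)]; congr 1; push_cast; ring
  rw [turns_succ', show (-1 : ℤ) + 1 = 0 by ring, turns_succ, p2, p3]
  rw [p1] at hp
  unfold UU at *
  rw [show (-1 : ℤ) + 1 = 0 by ring] at u1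
  rw [show (0 : ℤ) - 1 = -1 by ring] at *
  push_cast at *
  linarith

theorem exists_max_per {g : ℤ → ℝ} {M : ℕ} (hM : 0 < M) (hg : ∀ t, g (t + M) = g t) :
    ∃ s, ∀ t, g t ≤ g s := by
  have hper : Function.Periodic g (M : ℤ) := hg
  obtain ⟨s, -, hs⟩ := Finset.exists_max_image (Finset.Ico (0 : ℤ) M) g
    ⟨0, by simp; omega⟩
  refine ⟨s, fun t => ?_⟩
  have h1 : g t = g (t % M) := by
    conv_lhs => rw [← Int.emod_add_mul_ediv t M, mul_comm]
    exact (hper.int_mul (t / M)) (t % M)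
  rw [h1]
  apply hs
  simp only [Finset.mem_Ico]
  exact ⟨Int.emod_nonneg _ (by omega), Int.emod_lt_of_pos _ (by omega)⟩

theorem func_inj {u v : V ℤ} (h : (pos u).re + (pos u).im = (pos v).re + (pos v).im) : u = v := by
  by_contra hne
  have h4 := four_le_normSq hne
  rw [normSq_pos_sub] at h4
  simp only [pos_re, pos_im] at h
  have hirr : Irrational (Real.sqrt 3) := by
    simpa using Nat.Prime.irrational_sqrt (p := 3) (by norm_num)
  by_cases hY : cY u = cY v
  · have hX : (cX u : ℝ) = cX v := by rw [hY] at h; linarith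
    have hX' : cX u = cX v := by exact_mod_cast hX
    rw [hX', hY] at h4; norm_num at h4
  · apply hirr
    refine ⟨((cX v - cX u : ℤ) : ℚ) / ((cY u - cY v : ℤ) : ℚ), ?_⟩
    have : ((cY u : ℝ) - cY v) ≠ 0 := by
      intro h0; apply hY; exact_mod_cast sub_eq_zero.1 h0
    push_cast
    field_simp
    linarith

theorem Closed.total_cases (h : Closed F e m) :
    turns e (-1) (m + 3) = 6 ∨ turns e (-1) (m + 3) = -6 := by
  obtain ⟨s, hs⟩ := exists_max_per (g := fun t => (pos (F t)).re + (pos (F t)).im) (M := m + 3)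
    (by omega) (fun t => by
      have := h.per t
      push_cast
      rw [← add_assoc, this])
  have hh : ∀ t : ℤ, s + 1 ≤ t → t ≤ s + 1 + ((m + 1 : ℕ) : ℤ) →
      hp (-1 - I) (pos (F t) - pos (F s)) := by
    intro t h1 h2
    have hne := h.inj s t (by omega) (by push_cast at h2; omega)
    have := lt_of_le_of_ne (hs t) (fun h0 => hne (func_inj h0).symm)
    unfold hp
    simp
    linarith
  have tel := var_tel hh
  have p1 : F (s + 1 + ((m + 1 : ℕ) : ℤ)) = F (s - 1) := by
    rw [← h.per (s - 1)]; congr 1; push_cast; ring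
  have a1 := hh (s + 1) le_rfl (by push_cast; omega)
  have a2 := hh _ (by push_cast; omega) le_rfl
  rw [← arg_div_hp a1 a2, p1] at tel
  have hb := h.path.back (s - 1)
  have hn := h.ne (s - 1)
  rw [sub_add_cancel] at hb hn
  obtain ⟨-, -, c3, -⟩ := corner hb (h.path s) hn
  have tot := h.total
  rw [← h.UU_const s] at tot
  unfold UU at tot
  rw [tel, c3] at tot
  have hpi := Real.pi_pos
  have : (turns e (-1) (m + 3) : ℝ) = 6 * tau (e (s - 1)) (e s) := by
    have : ((turns e (-1) (m + 3) : ℝ) - 6 * tau (e (s - 1)) (e s)) * π = 0 := by linarith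
    rcases mul_eq_zero.1 this with h0 | h0
    · linarith
    · linarith
  have h' : turns e (-1) (m + 3) = 6 * tau (e (s - 1)) (e s) := by exact_mod_cast this
  rcases tau_cases (e (s - 1)) (e s) with h0 | h0 <;> rw [h0] at h' <;> simp [h']

/-- total turning versus winding number around the third neighbour of `F 0` -/
theorem Closed.third (h : Closed F e m) {p : V ℤ} {ε : ZMod 3} (hp0 : F 0 = nb p ε)
    (hp : ∀ t, F t ≠ p) :
    (turns e (-1) (m + 3) : ℝ) * π / 3 =
      2 * var (pos p) F 0 (m + 3) - 2 * tau ε (e 0) * π := by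
  have hp' : p = nb (F 0) ε := by rw [hp0, nb_nb]
  have hb := h.path.back (-1)
  have hn := h.ne (-1)
  have h1 := h.path 0
  rw [show (-1 : ℤ) + 1 = 0 by ring] at hb hn
  have n1 : ε ≠ e 0 := by rintro rfl; exact hp _ (h1.trans hp'.symm)
  have n2 : ε ≠ e (-1) := by rintro rfl; exact hp _ (hb.trans hp'.symm)
  have st := strip h.path hp0 (s := 0 + 1) (k := m + 1) (fun t h1 h2 =>
    ⟨hp t, (h.inj 0 t (by omega) (by push_cast at h2; omega)).symm⟩)
  obtain ⟨c1, c2, -, -⟩ := corner hp' h1 n1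
  obtain ⟨-, d2, -, d4⟩ := corner hp' hb n2
  have t1 := tau_third n1 n2 hn.symm
  have t2 := tau_third' n1 n2 hn.symm
  have p1 : F (0 + 1 + ((m + 1 : ℕ) : ℤ)) = F (-1) := by
    rw [← h.per (-1)]; congr 1; push_cast; ring
  have p2 : F (0 + 1 + ((m + 1 : ℕ) : ℤ) + 1) = F 0 := by
    rw [← h.per 0]; congr 1; push_cast; ring
  rw [h.total, var_succ', var_succ, p1]
  rw [p2, c1, d4, t1]
  rw [p1, d2, c2, t1] at st
  unfold UU
  rw [show (0 : ℤ) - 1 = -1 by ring, t2]
  push_cast at *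
  linarith

theorem Closed.third_zero (h : Closed F e m) {p : V ℤ} {ε : ZMod 3} (hp0 : F 0 = nb p ε)
    (hp : ∀ t, F t ≠ p) (hw : var (pos p) F 0 (m + 3) = 0) :
    turns e (-1) (m + 3) = -6 * tau ε (e 0) := by
  have := h.third hp0 hp
  rw [hw] at this
  have hpi := Real.pi_pos
  have h2 : ((turns e (-1) (m + 3) : ℝ) + 6 * tau ε (e 0)) * π = 0 := by linarith
  rcases mul_eq_zero.1 h2 with h0 | h0
  · have : (turns e (-1) (m + 3) : ℝ) = -6 * tau ε (e 0) := by linarith
    exact_mod_cast this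
  · linarith

theorem Closed.third_ne (h : Closed F e m) {p : V ℤ} {ε : ZMod 3} (hp0 : F 0 = nb p ε)
    (hp : ∀ t, F t ≠ p) (hw : var (pos p) F 0 (m + 3) ≠ 0) :
    turns e (-1) (m + 3) = 6 * tau ε (e 0) := by
  have := h.third hp0 hp
  rcases h.total_cases with h1 | h1 <;> rcases tau_cases ε (e 0) with h2 | h2 <;>
    rw [h1, h2] at this <;> rw [h1, h2] <;> first | rfl | (exfalso; apply hw; push_cast at this; linarith)

theorem Closed.wind_nb (h : Closed F e m) {p q : V ℤ} {ε : ZMod 3} (hq : q = nb p ε)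
    (h1 : ∀ t, F t ≠ p) (h2 : ∀ t, F t ≠ q) :
    var (pos q) F 0 (m + 3) = var (pos p) F 0 (m + 3) := by
  have st := strip h.path hq (s := 0) (k := m + 3) (fun t _ _ => ⟨h1 t, h2 t⟩)
  have p2 : F (0 + ((m + 3 : ℕ) : ℤ)) = F 0 := by
    rw [← h.per 0]; congr 1
  rw [p2] at st
  linarith

theorem Closed.wind_hp (h : Closed F e m) {p d : ℂ} (h1 : ∀ t, hp d (pos (F t) - p)) :
    var p F 0 (m + 3) = 0 := by
  have p2 : F (0 + ((m + 3 : ℕ) : ℤ)) = F 0 := by
    rw [← h.per 0]; congr 1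
  rw [var_tel (fun t _ _ => h1 t), p2, sub_self]

theorem Closed.wind_shift (h : Closed F e m) (p : ℂ) (s : ℤ) :
    var p F s (m + 3) = var p F 0 (m + 3) := by
  have key : ∀ s, var p F (s + 1) (m + 3) = var p F s (m + 3) := by
    intro s
    have a := var_succ p F s (m + 3)
    have b := var_succ' p F s (m + 3)
    have p1 : F (s + ((m + 3 : ℕ) : ℤ)) = F s := by rw [← h.per s]; congr 1; push_cast; ring
    have p2 : F (s + ((m + 3 : ℕ) : ℤ) + 1) = F (s + 1) := by
      rw [← h.per (s + 1)]; congr 1; push_cast; ring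
    rw [p1, p2] at a
    linarith
  induction s using Int.induction_on with
  | zero => rfl
  | succ s ih => rw [key, ih]
  | pred s ih => rw [← ih, ← key (-(s : ℤ) - 1), sub_add_cancel]

theorem var_rev (hF : Path F e) {p : V ℤ} (h1 : ∀ t, F t ≠ p) (s : ℤ) (k : ℕ) :
    var (pos p) (fun t => F (s - t)) 0 k = - var (pos p) F (s - k) k := by
  induction k with
  | zero => simp [var]
  | succ k ih =>
    rw [var_succ, ih, var_succ']
    have hs := hF (s - (k + 1 : ℕ))
    obtain ⟨d, d1, d2⟩ := point_edge (e' := e (s - (k + 1 : ℕ))) (h1 (s - (k + 1 : ℕ)))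
      (by rw [← hs]; exact h1 _)
    rw [← hs] at d2
    rw [show s - ((k + 1 : ℕ) : ℤ) + 1 = s - k by push_cast; ring] at *
    rw [show s - (0 + (k : ℤ) + 1) = s - ((k + 1 : ℕ) : ℤ) by push_cast; ring, zero_add,
      arg_div_hp d1 d2, arg_div_hp d2 d1]
    ring

end closed

/-- an injective path that is periodic up to a non-zero translation has zero turning per period -/
theorem turns_open {F : ℤ → V ℤ} {e : ℤ → ZMod 3} {M : ℕ} (hF : Path F e)
    (hne : ∀ t, e t ≠ e (t + 1)) (hM : 0 < M) (eper : ∀ t, e (t + M) = e t) {D : ℂ} (hD : D ≠ 0)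
    (per : ∀ t, pos (F (t + M)) = pos (F t) + D) (inj : ∀ a b, a < b → F a ≠ F b) :
    turns e (-1) M = 0 := by
  set g : ℤ → ℝ := fun t => (pos (F t) * (starRingEnd ℂ) D).re with hg
  have hpos : 0 < normSq D := normSq_pos.2 hD
  have g1 : ∀ t, g (t + M) = g t + normSq D := by
    intro t; simp only [hg, per, add_mul, add_re, mul_conj, ofReal_re]
  have g2 : ∀ t (q : ℕ), g (t + q * M) = g t + q * normSq D := by
    intro t q
    induction q with
    | zero => simp
    | succ q ih => push_cast; rw [add_mul, one_mul, ← add_assoc, g1, ih]; ring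
  obtain ⟨B, hB0, hB⟩ : ∃ B : ℝ, 0 ≤ B ∧ ∀ t, g t - B ≤ g (t + 1) := by
    refine ⟨2 + normSq D / 2, by positivity, fun t => ?_⟩
    have a := normSq_nb (F t) (e t)
    rw [← hF] at a
    have b := normSq_nonneg (pos (F (t + 1)) - pos (F t) + D)
    simp only [hg, normSq_apply, sub_re, sub_im, add_re, add_im, mul_re, conj_re, conj_im] at *
    nlinarith
  have g3 : ∀ t (r : ℕ), g t - r * B ≤ g (t + r) := by
    intro t r
    induction r with
    | zero => simp
    | succ r ih => push_cast; rw [← add_assoc]; have := hB (t + r); linarith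
  obtain ⟨q0, hq0⟩ := exists_nat_gt (M * B / normSq D)
  have hq1 : M * B < q0 * normSq D := by rwa [div_lt_iff₀ hpos] at hq0
  have far : ∀ s t : ℤ, s + q0 * M ≤ t → hp D (pos (F t) - pos (F s)) := by
    intro s t hst
    obtain ⟨u, hu⟩ : ∃ u : ℕ, t = s + u := ⟨(t - s).toNat, by have : (0 : ℤ) ≤ q0 * M := by positivity
                                                              omega⟩
    have hu2 : q0 * M ≤ u := by have : ((q0 * M : ℕ) : ℤ) ≤ u := by push_cast; omega
                                exact_mod_cast this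
    have hq : q0 ≤ u / M := (Nat.le_div_iff_mul_le hM).2 hu2
    have hr : u % M < M := Nat.mod_lt _ hM
    have e1 : t = s + ((u % M : ℕ) : ℤ) + ((u / M : ℕ) : ℤ) * M := by
      have := Nat.mod_add_div u M
      rw [hu, add_assoc]; congr 1
      rw [mul_comm]; exact_mod_cast this.symm
    have a := g2 (s + ((u % M : ℕ) : ℤ)) (u / M)
    have b := g3 s (u % M)
    rw [← e1] at a
    have c1 : ((u % M : ℕ) : ℝ) ≤ M := by exact_mod_cast hr.le
    have c2 : (q0 : ℝ) ≤ (u / M : ℕ) := by exact_mod_cast hq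
    unfold hp
    rw [sub_mul, sub_re]
    change 0 < g t - g s
    nlinarith
  have tN : ∀ N : ℕ, turns e (-1) (N * M) = N * turns e (-1) M := by
    have sh : ∀ N : ℕ, turns e (-1 + (N * M : ℕ)) M = turns e (-1) M := by
      intro N
      have hper : Function.Periodic e (M : ℤ) := eper
      unfold turns
      apply sum_congr rfl
      intro t _
      have a := hper.nat_mul N (-1 + t)
      have b := hper.nat_mul N (-1 + t + 1)
      push_cast
      rw [← a, ← b]; congr 2 <;> ring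
    intro N
    induction N with
    | zero => simp [turns]
    | succ N ih => rw [Nat.succ_mul, turns_add, ih, sh]; push_cast; ring
  obtain ⟨K, hK⟩ : ∃ K, K = q0 * M := ⟨_, rfl⟩
  have aux : ∀ {a A u w : ℝ}, |a| ≤ A → |u| < π / 2 → |w| < π / 2 → |a + (u - w)| ≤ A + π := by
    intro a A u w h1 h2 h3
    rw [abs_le] at *
    rw [abs_lt] at *
    constructor <;> linarith [h1.1, h1.2, h2.1, h2.2, h3.1, h3.2]
  have bound : ∀ l : ℕ, |(turns e (-1) (K + l) : ℝ)| * π / 3 ≤ 2 * (K + 1) * π := by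
    intro l
    have hh := hopf hF hne (s := -1) (k := K + l) (fun a b _ h2 _ => inj a b h2)
    have b1 : |var (pos (F (-1))) F (-1 + 1) (K + l)| ≤ K * π + π := by
      rw [var_add]
      have x1 := abs_var_le (pos (F (-1))) F (-1 + 1) K
      have hf : ∀ t : ℤ, -1 + 1 + (K : ℤ) ≤ t → t ≤ -1 + 1 + (K : ℤ) + l →
          hp D (pos (F t) - pos (F (-1))) := fun t h1 _ => far _ _ (by push_cast [hK] at h1; omega)
      rw [var_tel hf]
      exact aux x1 (abs_th_lt (hf _ (by omega) le_rfl)) (abs_th_lt (hf _ le_rfl (by omega)))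
    have b2 : |var (pos (F (-1 + (K + l : ℕ) + 1))) F (-1) (K + l)| ≤ K * π + π := by
      rw [add_comm K l, var_add]
      have x1 := abs_var_le (pos (F (-1 + (l + K : ℕ) + 1))) F (-1 + l) K
      have hf : ∀ t : ℤ, -1 ≤ t → t ≤ -1 + (l : ℤ) →
          hp (-D) (pos (F t) - pos (F (-1 + (l + K : ℕ) + 1))) := fun t _ h2 => by
        have := hp_neg (far t (-1 + (l + K : ℕ) + 1) (by push_cast [hK]; omega))
        rwa [neg_sub] at this
      rw [var_tel hf]
      rw [add_comm]
      exact aux x1 (abs_th_lt (hf _ (by omega) le_rfl)) (abs_th_lt (hf _ le_rfl (by omega)))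
    have hpi := Real.pi_pos
    have : |(turns e (-1) (K + l) : ℝ)| * π / 3 = |(turns e (-1) (K + l) : ℝ) * π / 3| := by
      rw [abs_div, abs_mul, abs_of_pos hpi]; norm_num
    rw [this, hh]
    have := abs_add_le (var (pos (F (-1))) F (-1 + 1) (K + l))
      (var (pos (F (-1 + (K + l : ℕ) + 1))) F (-1) (K + l))
    linarith
  by_contra h0
  have h1 : (1 : ℝ) ≤ |(turns e (-1) M : ℝ)| := by
    have := Int.one_le_abs h0
    exact_mod_cast this
  have := bound ((6 * (K + 1) + 1) * M)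
  rw [hK, ← add_mul, tN] at this
  push_cast at this
  rw [abs_mul, abs_of_nonneg (by positivity)] at this
  have hpi := Real.pi_pos
  have hq : (0 : ℝ) ≤ q0 := by positivity
  have hMM : (0 : ℝ) ≤ q0 * M := by positivity
  have h2 : (q0 + (6 * (q0 * M + 1) + 1) : ℝ) * π ≤
      (q0 + (6 * (q0 * M + 1) + 1) : ℝ) * |(turns e (-1) M : ℝ)| * π := by
    have : (0 : ℝ) ≤ (q0 + (6 * (q0 * M + 1) + 1) : ℝ) * π := by positivity
    nlinarith
  nlinarith

end Pool.Agent.Lib.MP_4960b8_pr
end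

-- part Pool.Agent.Lib.MP_4960b8_pr.Rep
section

/-! Parametrisations of loops, lifts to the plane and topological classes. -/

namespace Pool.Agent.Lib.MP_4960b8_pr

open Complex Real Finset

theorem zmod3 : ∀ e : ZMod 3, e = 0 ∨ e = 1 ∨ e = 2 := by decide

theorem nb_inj {R : Type} [Ring R] [Nontrivial R] {v : V R} {e e' : ZMod 3}
    (h : nb v e = nb v e') : e = e' := by
  obtain ⟨i, j, b⟩ := v
  have d1 : (1 : ZMod 3) ≠ 0 := by decide
  have d2 : (2 : ZMod 3) ≠ 0 := by decide
  have d3 : (2 : ZMod 3) ≠ 1 := by decide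
  rcases zmod3 e with rfl | rfl | rfl <;> rcases zmod3 e' with rfl | rfl | rfl <;>
    first
    | rfl
    | (exfalso; cases b <;> simp [nb, d1, d2, d3, sub_eq_self, eq_comm (a := i), eq_comm (a := j)] at h)

theorem proj_nb (L : ℕ) (v : V ℤ) (e : ZMod 3) : proj L (nb v e) = nb (proj L v) e := by
  obtain ⟨i, j, b⟩ := v
  cases b <;> by_cases h0 : e = 0 <;> by_cases h1 : e = 1 <;> simp [nb, proj, h0, h1]

def tr (a b : ℤ) (v : V ℤ) : V ℤ := (v.1 + a, v.2.1 + b, v.2.2)

theorem tr_nb (a b : ℤ) (v : V ℤ) (e : ZMod 3) : tr a b (nb v e) = nb (tr a b v) e := by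
  obtain ⟨i, j, c⟩ := v
  cases c <;> by_cases h0 : e = 0 <;> by_cases h1 : e = 1 <;> simp [nb, tr, h0, h1] <;> ring

theorem tr_zero (v : V ℤ) : tr 0 0 v = v := by simp [tr]

theorem pos_tr (a b : ℤ) (v : V ℤ) : pos (tr a b v) = pos v + pos (a, b, false) := by
  apply Complex.ext <;> simp [pos_re, pos_im, cX, cY, tr] <;> ring

theorem pos_vec_ne {a b : ℤ} (h : ¬ (a = 0 ∧ b = 0)) : pos (a, b, false) ≠ 0 := by
  have h1 : ((a, b, false) : V ℤ) ≠ (0, 0, false) := by simpa using h
  have := pos_ne h1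
  have h2 : pos (0, 0, false) = 0 := by simp [pos]
  rwa [h2, sub_zero] at this

theorem proj_tr {L : ℕ} {a b : ℤ} (ha : (L : ℤ) ∣ a) (hb : (L : ℤ) ∣ b) (v : V ℤ) :
    proj L (tr a b v) = proj L v := by
  simp [proj, tr, (ZMod.intCast_zmod_eq_zero_iff_dvd a L).2 ha,
    (ZMod.intCast_zmod_eq_zero_iff_dvd b L).2 hb]

theorem proj_eq {L : ℕ} {u v : V ℤ} (h : proj L u = proj L v) :
    ∃ a b, (L : ℤ) ∣ a ∧ (L : ℤ) ∣ b ∧ u = tr a b v := by
  obtain ⟨i, j, c⟩ := u
  obtain ⟨i', j', c'⟩ := v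
  simp only [proj, Prod.mk.injEq] at h
  refine ⟨i - i', j - j', (ZMod.intCast_eq_intCast_iff_dvd_sub _ _ _).1 h.1.symm,
    (ZMod.intCast_eq_intCast_iff_dvd_sub _ _ _).1 h.2.1.symm, ?_⟩
  simp [tr, h.2.2]

theorem proj_surj (L : ℕ) [NeZero L] (v : V (ZMod L)) : ∃ u, proj L u = v :=
  ⟨((v.1.val : ℤ), (v.2.1.val : ℤ), v.2.2), by simp [proj]⟩

section paths
variable {R : Type} [Ring R]

theorem Path.unique {F G : ℤ → V R} {e : ℤ → ZMod 3} (hF : Path F e) (hG : Path G e)
    (h : F 0 = G 0) (t : ℤ) : F t = G t := by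
  induction t using Int.induction_on with
  | zero => exact h
  | succ s ih => rw [hF, hG, ih]
  | pred s ih => rw [hF.back, hG.back, sub_add_cancel, ih]

theorem exists_path (e : ℤ → ZMod 3) (v : V R) : ∃ F : ℤ → V R, Path F e ∧ F 0 = v := by
  let A : ℕ → V R := fun n => Nat.rec v (fun k w => nb w (e k)) n
  let B : ℕ → V R := fun n => Nat.rec v (fun k w => nb w (e (-(k : ℤ) - 1))) n
  refine ⟨fun t => if 0 ≤ t then A t.toNat else B (-t).toNat, fun t => ?_, by simp [A]⟩
  rcases le_or_gt 0 t with h | h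
  · obtain ⟨n, rfl⟩ := Int.eq_ofNat_of_zero_le h
    have h1 : (0 : ℤ) ≤ (n : ℤ) + 1 := by omega
    have h2 : ((n : ℤ) + 1).toNat = n + 1 := by omega
    simp only [h, h1, if_true, h2, Int.toNat_natCast]
    rfl
  · obtain ⟨n, rfl⟩ : ∃ n : ℕ, t = -(n : ℤ) - 1 := ⟨(-t - 1).toNat, by omega⟩
    have h2 : (-(-(n : ℤ) - 1)).toNat = n + 1 := by omega
    have h3 : B (n + 1) = nb (B n) (e (-(n : ℤ) - 1)) := rfl
    simp only [not_le.2 h, if_false, h2, h3, nb_nb]
    split_ifs with h4
    · have : n = 0 := by omega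
      subst this; rfl
    · congr 1; omega

theorem Path.shift {F : ℤ → V R} {e : ℤ → ZMod 3} (hF : Path F e) (s : ℤ) :
    Path (fun t => F (s + t)) (fun t => e (s + t)) := fun t => by
  simp only; rw [← add_assoc, hF]

theorem Path.rev {F : ℤ → V R} {e : ℤ → ZMod 3} (hF : Path F e) (s : ℤ) :
    Path (fun t => F (s - t)) (fun t => e (s - t - 1)) := fun t => by
  simp only
  rw [show s - (t + 1) = s - t - 1 by ring, hF.back (s - t - 1), sub_add_cancel]

variable {m m' : ℕ} {f g : ℤ → V R} {c : Finset (Sym2 (V R))}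

theorem Param.shift (h : Param m f c) (s : ℤ) : Param m (fun t => f (s + t)) c := by
  obtain ⟨h1, h2, h3, h4⟩ := h
  refine ⟨h1, fun t => ?_, fun a b => ?_, fun z => ?_⟩
  · simp only; rw [← add_assoc]; exact h2 _
  · simp only; rw [h3, add_sub_add_left_eq_sub]
  · rw [h4]
    constructor
    · rintro ⟨t, rfl⟩
      exact ⟨t - s, by simp only; congr 2 <;> ring⟩
    · rintro ⟨t, rfl⟩
      exact ⟨s + t, by simp only; rw [add_assoc]⟩

theorem Param.rev (h : Param m f c) (s : ℤ) : Param m (fun t => f (s - t)) c := by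
  obtain ⟨h1, h2, h3, h4⟩ := h
  refine ⟨h1, fun t => ?_, fun a b => ?_, fun z => ?_⟩
  · simp only
    have := (h2 (s - (t + 1))).symm
    rwa [show s - (t + 1) + 1 = s - t by ring] at this
  · simp only; rw [h3, ← dvd_neg]; congr! 1; ring
  · rw [h4]
    constructor
    · rintro ⟨t, rfl⟩
      exact ⟨s - t - 1, by simp only; rw [Sym2.eq_swap]; congr 2 <;> ring⟩
    · rintro ⟨t, rfl⟩
      exact ⟨s - t - 1, by simp only; rw [Sym2.eq_swap]; congr 2 <;> ring⟩

theorem Param.per (h : Param m f c) (t : ℤ) : f (t + m) = f t := by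
  rw [h.2.2.1]; simp

theorem Param.on (h : Param m f c) (v : V R) : On v c ↔ ∃ t, v = f t := by
  constructor
  · rintro ⟨z, hz, hv⟩
    obtain ⟨t, rfl⟩ := (h.2.2.2 z).1 hz
    rcases Sym2.mem_iff.1 hv with rfl | rfl
    exacts [⟨_, rfl⟩, ⟨_, rfl⟩]
  · rintro ⟨t, rfl⟩
    exact ⟨_, (h.2.2.2 _).2 ⟨t, rfl⟩, Sym2.mem_mk_left _ _⟩

theorem Param.ne (h : Param m f c) {a b : ℤ} (h1 : a < b) (h2 : b < a + m) : f a ≠ f b := by
  rw [Ne, h.2.2.1]
  intro hd
  have := Int.le_of_dvd (by omega : 0 < b - a) (dvd_sub_comm.1 hd)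
  omega

theorem Param.mod (h : Param m f c) (t : ℤ) : f (t % m) = f t := by
  rw [h.2.2.1, ← dvd_neg, neg_sub]; exact Int.dvd_sub_self_of_emod_eq rfl |> fun h => by
    rw [← dvd_neg, neg_sub]; exact h

theorem Param.card (h : Param m f c) : c.card = m := by
  classical
  have h3 := h.1
  have : c = (range m).image (fun t : ℕ => s(f t, f (t + 1))) := by
    ext z
    rw [h.2.2.2, mem_image]
    constructor
    · rintro ⟨t, rfl⟩
      have a1 := Int.emod_nonneg t (by omega : (m : ℤ) ≠ 0)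
      have a2 := Int.emod_lt_of_pos t (by omega : (0 : ℤ) < m)
      refine ⟨(t % m).toNat, mem_range.2 (by omega), ?_⟩
      rw [Int.toNat_of_nonneg a1, h.mod]
      congr 1
      have := (h.2.2.1 _ _).1 (h.mod t)
      rw [h.2.2.1, add_sub_add_right_eq_sub]; exact this
    · rintro ⟨t, -, rfl⟩; exact ⟨_, rfl⟩
  rw [this, card_image_of_injOn, card_range]
  intro a ha b hb hab
  simp only [coe_range, Set.mem_Iio] at ha hb
  rcases Sym2.eq_iff.1 hab with ⟨h1, -⟩ | ⟨h1, h2⟩
  · by_contra hne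
    rcases lt_or_gt_of_ne hne with h' | h'
    · exact h.ne (by omega) (by omega) h1
    · exact h.ne (by omega) (by omega) h1.symm
  · exfalso
    have := dvd_sub ((h.2.2.1 _ _).1 h2) ((h.2.2.1 _ _).1 h1)
    have := Int.le_of_dvd (by omega) this
    omega

theorem Param.nbr (h : Param m f c) {s : ℤ} {w : V R} (hw : s(f s, w) ∈ c) :
    w = f (s + 1) ∨ w = f (s - 1) := by
  obtain ⟨t, ht⟩ := (h.2.2.2 _).1 hw
  rcases Sym2.eq_iff.1 ht with ⟨h1, h2⟩ | ⟨h1, h2⟩
  · left
    rw [h2, h.2.2.1, add_sub_add_right_eq_sub, ← h.2.2.1, h1]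
  · right
    rw [h2, h.2.2.1, show t - (s - 1) = t + 1 - s by ring, ← h.2.2.1, h1]

theorem Param.unique (hf : Param m f c) (hg : Param m' g c) (h0 : g 0 = f 0) (h1 : g 1 = f 1)
    (t : ℤ) : g t = f t := by
  have h3 := hg.1
  have key : ∀ t : ℤ, g t = f t ∧ g (t + 1) = f (t + 1) := by
    intro t
    induction t using Int.induction_on with
    | zero => exact ⟨h0, h1⟩
    | succ s ih =>
      refine ⟨ih.2, ?_⟩
      have := (hg.2.2.2 _).2 ⟨(s : ℤ) + 1, rfl⟩
      rw [ih.2] at this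
      rcases hf.nbr this with h | h
      · exact h
      · exfalso
        rw [add_sub_cancel_right, ← ih.1] at h
        exact hg.ne (by omega) (by omega) h.symm
    | pred s ih =>
      rw [sub_add_cancel]
      refine ⟨?_, ih.1⟩
      have := (hg.2.2.2 _).2 ⟨-(s : ℤ) - 1, rfl⟩
      rw [sub_add_cancel, ih.1, Sym2.eq_swap] at this
      rcases hf.nbr this with h | h
      · exfalso
        rw [← ih.2] at h
        exact hg.ne (by omega) (by omega) h
      · exact h
  exact (key t).1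

theorem Param.struct (hf : Param m f c) (hg : Param m' g c) :
    ∃ s, (∀ t, g t = f (s + t)) ∨ (∀ t, g t = f (s - t)) := by
  obtain ⟨s, hs⟩ := (hf.on (g 0)).1 ((hg.on _).2 ⟨0, rfl⟩)
  have := (hg.2.2.2 _).2 ⟨0, rfl⟩
  rw [hs, zero_add] at this
  refine ⟨s, ?_⟩
  rcases hf.nbr this with h | h
  · left; exact (hf.shift s).unique hg (by simpa using hs) h
  · right; exact (hf.rev s).unique hg (by simpa using hs) h

end paths

/-- a lift with its edge types -/
def Rep (L m : ℕ) (F : ℤ → V ℤ) (e : ℤ → ZMod 3) (c : Finset (Sym2 (V (ZMod L)))) : Prop :=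
  Path F e ∧ Param m (fun t => proj L (F t)) c

section reps
variable {L m m' : ℕ} {F G : ℤ → V ℤ} {e e' : ℤ → ZMod 3} {c : Finset (Sym2 (V (ZMod L)))}

theorem Lift.rep (h : Lift L m F c) : ∃ e, Rep L m F e c := by
  choose e he using h.1
  exact ⟨e, he, h.2⟩

theorem Rep.lift (h : Rep L m F e c) : Lift L m F c := ⟨fun t => ⟨e t, h.1 t⟩, h.2⟩

theorem Path.proj (h : Path F e) (L : ℕ) : Path (fun t => proj L (F t)) e := fun t => by
  simp only; rw [h, proj_nb]

theorem Path.tr (h : Path F e) (a b : ℤ) : Path (fun t => tr a b (F t)) e := fun t => by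
  simp only; rw [h, tr_nb]

theorem exists_rep {f : ℤ → V (ZMod L)} (h : Param m f c) {v : V ℤ} (hv : proj L v = f 0) :
    ∃ F e, Rep L m F e c ∧ F 0 = v ∧ ∀ t, proj L (F t) = f t := by
  choose e he using h.2.1
  obtain ⟨F, hF, h0⟩ := exists_path e v
  have : ∀ t, proj L (F t) = f t := (hF.proj L).unique he (by rw [← hv, ← h0])
  refine ⟨F, e, ⟨hF, ?_⟩, h0, this⟩
  simp only [this]; exact h

theorem lift_unique [Fact (1 < L)] (hF : Path F e) (hG : Path G e')
    (h : ∀ t, proj L (G t) = proj L (F t)) :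
    ∃ a b, (L : ℤ) ∣ a ∧ (L : ℤ) ∣ b ∧ (∀ t, G t = tr a b (F t)) ∧ e' = e := by
  have he : e' = e := by
    funext t
    have h1 := h (t + 1)
    rw [hF, hG, proj_nb, proj_nb, h] at h1
    exact nb_inj h1
  subst he
  obtain ⟨a, b, ha, hb, h0⟩ := proj_eq (h 0)
  exact ⟨a, b, ha, hb, hG.unique (hF.tr a b) h0, rfl⟩

theorem Rep.ne (h : Rep L m F e c) (t : ℤ) : e t ≠ e (t + 1) := by
  intro h1
  have h3 := h.2.1
  have := h.1 (t + 1)
  rw [← h1, h.1 t, nb_nb] at this
  exact h.2.ne (a := t) (b := t + 1 + 1) (by omega) (by omega) (congrArg (proj L) this.symm)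

theorem Rep.disp [Fact (1 < L)] (h : Rep L m F e c) :
    ∃ a b, (L : ℤ) ∣ a ∧ (L : ℤ) ∣ b ∧ (∀ t, F (t + m) = tr a b (F t)) ∧ ∀ t, e (t + m) = e t := by
  obtain ⟨a, b, ha, hb, h1, h2⟩ := lift_unique (L := L) h.1 (h.1.shift m)
    (fun t => by rw [add_comm]; exact h.2.per t)
  exact ⟨a, b, ha, hb, fun t => by rw [add_comm]; exact h1 t,
    fun t => by rw [add_comm]; exact congrFun h2 t⟩

theorem tr_eq_self {a b : ℤ} {v : V ℤ} (h : tr a b v = v) : a = 0 ∧ b = 0 := by
  obtain ⟨i, j, c⟩ := v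
  simpa [tr] using h

theorem Rep.per [Fact (1 < L)] (h : Rep L m F e c) (h0 : F m = F 0) (t : ℤ) : F (t + m) = F t := by
  obtain ⟨a, b, -, -, h1, -⟩ := h.disp
  have := h1 0
  rw [zero_add, h0] at this
  obtain ⟨rfl, rfl⟩ := tr_eq_self this.symm
  rw [h1, tr_zero]

theorem Rep.closed [Fact (1 < L)] (h : Rep L m F e c) (h0 : F m = F 0) :
    ∃ k, m = k + 3 ∧ Closed F e k := by
  obtain ⟨k, rfl⟩ : ∃ k, m = k + 3 := ⟨m - 3, by have := h.2.1; omega⟩
  obtain ⟨a, b, -, -, -, h2⟩ := h.disp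
  refine ⟨k, rfl, h.1, h.ne, fun t => ?_, fun t => ?_, fun a b h1 h2 h3 => ?_⟩
  · rw [← h.per h0 t]; congr 1; push_cast; ring
  · rw [← h2 t]; congr 1; push_cast; ring
  · exact h.2.ne h1 (by push_cast; omega) (congrArg (proj L) h3)

theorem Rep.open_turns [Fact (1 < L)] (h : Rep L m F e c) (h0 : F m ≠ F 0) :
    turns e (-1) m = 0 := by
  obtain ⟨a, b, -, -, h1, h2⟩ := h.disp
  have hab : ¬ (a = 0 ∧ b = 0) := by
    rintro ⟨rfl, rfl⟩
    have := h1 0
    rw [zero_add, tr_zero] at this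
    exact h0 this
  have h3 := h.2.1
  have it : ∀ (q : ℕ) t, F (t + q * m) = tr (q * a) (q * b) (F t) := by
    intro q t
    induction q with
    | zero => simp [tr_zero]
    | succ q ih =>
      push_cast
      rw [add_mul, one_mul, ← add_assoc, h1, ih]
      simp only [tr]; congr 1
      · ring
      · congr 1; ring
  refine turns_open h.1 h.ne (by omega) h2 (pos_vec_ne hab) (fun t => by rw [h1, pos_tr]) ?_
  intro s t hst he
  have hd : (m : ℤ) ∣ t - s := (h.2.2.2.1 t s).1 (by simp only; rw [he])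
  obtain ⟨q, hq⟩ := hd
  have hq0 : 0 < q := by
    by_contra hn
    have : (m : ℤ) * q ≤ 0 := mul_nonpos_of_nonneg_of_nonpos (by omega) (by omega)
    omega
  obtain ⟨q, rfl⟩ := Int.eq_ofNat_of_zero_le hq0.le
  have := it q s
  rw [show s + q * m = t by linarith, ← he] at this
  obtain ⟨x1, x2⟩ := tr_eq_self this.symm
  apply hab
  constructor
  · rcases mul_eq_zero.1 x1 with h | h
    · omega
    · exact h
  · rcases mul_eq_zero.1 x2 with h | h
    · omega
    · exact h

theorem Rep.struct [Fact (1 < L)] (hF : Rep L m F e c) (hG : Rep L m' G e' c) :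
    m' = m ∧ ∃ s a b, (L : ℤ) ∣ a ∧ (L : ℤ) ∣ b ∧
      ((∀ t, G t = tr a b (F (s + t))) ∨ (∀ t, G t = tr a b (F (s - t)))) := by
  refine ⟨by rw [← hF.2.card, ← hG.2.card], ?_⟩
  obtain ⟨s, h | h⟩ := hF.2.struct hG.2
  · obtain ⟨a, b, ha, hb, h1, -⟩ := lift_unique (hF.1.shift s) hG.1 h
    exact ⟨s, a, b, ha, hb, Or.inl h1⟩
  · obtain ⟨a, b, ha, hb, h1, -⟩ := lift_unique (hF.1.rev s) hG.1 h
    exact ⟨s, a, b, ha, hb, Or.inr h1⟩

theorem Rep.not_nonContr [Fact (1 < L)] (h : Rep L m F e c) (h0 : F m = F 0) : ¬ NonContr L c := by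
  rintro ⟨m', G, hG, hne⟩
  obtain ⟨e', hG⟩ := hG.rep
  obtain ⟨rfl, s, a, b, -, -, h1 | h1⟩ := h.struct hG
  · apply hne; rw [h1, h1, h.per h0, add_zero]
  · apply hne; rw [h1, h1, ← h.per h0 (s - m'), sub_add_cancel, sub_zero]

theorem Rep.nonContr (h : Rep L m F e c) (h0 : F m ≠ F 0) : NonContr L c := ⟨m, F, h.lift, h0⟩

/-- plane vertices joined to the base vertex by a path whose projection avoids `U` -/
inductive Adm (L : ℕ) (U : Finset (V (ZMod L))) : V ℤ → Prop
  | base : proj L org ∉ U → Adm L U org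
  | step (p : V ℤ) (ε : ZMod 3) : Adm L U p → proj L (nb p ε) ∉ U → Adm L U (nb p ε)

theorem Adm.not_mem {U : Finset (V (ZMod L))} {p : V ℤ} (h : Adm L U p) : proj L p ∉ U := by
  cases h <;> assumption

theorem Adm.org {U : Finset (V (ZMod L))} {p : V ℤ} (h : Adm L U p) : proj L org ∉ U := by
  induction h <;> assumption

theorem Adm.mono {U U' : Finset (V (ZMod L))} (hU : U' ⊆ U) {p : V ℤ} (h : Adm L U p) :
    Adm L U' p := by
  induction h with
  | base h => exact Adm.base fun h' => h (hU h')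
  | step p ε _ h ih => exact Adm.step p ε ih fun h' => h (hU h')

theorem Adm.wind {U : Finset (V (ZMod L))} {k : ℕ} (hF : Closed F e k)
    (hU : ∀ t, proj L (F t) ∈ U) {p : V ℤ} (h : Adm L U p) :
    var (pos p) F 0 (k + 3) = var (pos MP_4960b8_pr.org) F 0 (k + 3) := by
  induction h with
  | base h => rfl
  | step p ε h1 h2 ih =>
    rw [← ih]
    exact hF.wind_nb rfl (fun t h => h1.not_mem (h ▸ hU t)) (fun t h => h2 (h ▸ hU t))

/-- the class `Surrounds` read off from a closed lift reached by an admissible path -/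
theorem Rep.surrounds_iff [Fact (1 < L)] {U : Finset (V (ZMod L))} (h : Rep L m F e c)
    (h0 : F m = F 0) (hU : ∀ t, proj L (F t) ∈ U) {p : V ℤ} {ε : ZMod 3} (hp : Adm L U p)
    (hpε : F 0 = nb p ε) : Surrounds L c ↔ var (pos p) F 0 m ≠ 0 := by
  obtain ⟨k, rfl, hc⟩ := h.closed h0
  have horg : ∀ t, F t ≠ org := fun t h' => hp.org (h' ▸ hU t)
  rw [hp.wind hc hU]
  refine ⟨?_, fun hw => ⟨_, F, h.lift, h0, horg, hw⟩⟩
  rintro ⟨m', G, hG, hG0, hGo, hw⟩
  obtain ⟨e', hG⟩ := hG.rep
  obtain ⟨rfl, s, a, b, ha, hb, h1⟩ := h.struct hG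
  obtain ⟨k', hk', hc'⟩ := hG.closed hG0
  obtain rfl : k = k' := by omega
  by_cases hab : a = 0 ∧ b = 0
  · obtain ⟨rfl, rfl⟩ := hab
    simp only [tr_zero] at h1
    rcases h1 with h1 | h1
    · have : var (pos org) G 0 (k + 3) = var (pos org) F s (k + 3) := by
        unfold var; simp only [h1, zero_add, add_assoc]
      rwa [this, hc.wind_shift] at hw
    · have : G = fun t => F (s - t) := funext h1
      rw [this, var_rev h.1 horg, hc.wind_shift] at hw
      simpa using hw
  · exfalso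
    have hG1 : ∀ t, ∃ t', G t = tr a b (F t') := fun t => by
      rcases h1 with h1 | h1 <;> exact ⟨_, h1 t⟩
    have hGU : ∀ t, proj L (G t) ∈ U := fun t => by
      obtain ⟨t', ht⟩ := hG1 t
      rw [ht, proj_tr ha hb]; exact hU t'
    have hdis : ∀ t t', G t ≠ F t' := by
      intro t t' he
      obtain ⟨t'', ht⟩ := hG1 t
      have h2 : proj L (F t'') = proj L (F t') := by rw [← he, ht, proj_tr ha hb]
      obtain ⟨q, hq⟩ := (h.2.2.2.1 _ _).1 h2
      have hper : Function.Periodic F ((k + 3 : ℕ) : ℤ) := h.per h0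
      have h3 := hper.int_mul q t'
      rw [Int.cast_id] at h3
      rw [show t' + q * ((k + 3 : ℕ) : ℤ) = t'' by linarith] at h3
      rw [ht, h3] at he
      exact hab (tr_eq_self he)
    have w0 : var (pos (F 0)) G 0 (k + 3) = var (pos org) G 0 (k + 3) := by
      rw [← hp.wind hc' hGU]
      exact hc'.wind_nb hpε (fun t h => hp.not_mem (h ▸ hGU t)) (fun t => hdis t 0)
    have w1 : ∀ t, var (pos (F t)) G 0 (k + 3) = var (pos org) G 0 (k + 3) := by
      have st : ∀ t, var (pos (F (t + 1))) G 0 (k + 3) = var (pos (F t)) G 0 (k + 3) :=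
        fun t => hc'.wind_nb (h.1 t) (fun t' => hdis t' _) (fun t' => hdis t' _)
      intro t
      induction t using Int.induction_on with
      | zero => exact w0
      | succ s ih => rw [st, ih]
      | pred s ih => rw [← ih, ← st (-(s : ℤ) - 1), sub_add_cancel]
    obtain ⟨t0, ht0⟩ := exists_max_per
      (g := fun t => -(pos (F t) * (starRingEnd ℂ) (pos (a, b, false))).re) (M := k + 3)
      (by omega) (fun t => by rw [h.per h0])
    apply hw
    rw [← w1 t0]
    apply hc'.wind_hp (d := pos (a, b, false))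
    intro t
    obtain ⟨t', ht⟩ := hG1 t
    have h5 := ht0 t'
    have h6 := normSq_pos.2 (pos_vec_ne hab)
    unfold MP_4960b8_pr.hp
    rw [ht, pos_tr, sub_mul, add_mul, sub_re, add_re, mul_conj, ofReal_re]
    linarith

theorem coord_lip (h : Path F e) (k : ℕ) :
    |(F k).1 - (F 0).1| ≤ k ∧ |(F k).2.1 - (F 0).2.1| ≤ k := by
  induction k with
  | zero => simp
  | succ k ih =>
    have h1 := h k
    have : ∀ (v : V ℤ) (ε : ZMod 3), |(nb v ε).1 - v.1| ≤ 1 ∧ |(nb v ε).2.1 - v.2.1| ≤ 1 := by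
      rintro ⟨i, j, b⟩ ε
      cases b <;> by_cases h0 : ε = 0 <;> by_cases h1 : ε = 1 <;> simp [nb, h0, h1]
    have h2 := this (F k) (e k)
    rw [← h1] at h2
    push_cast
    simp only [abs_le] at *
    omega

theorem NonContr.le_card [Fact (1 < L)] (h : NonContr L c) : L ≤ c.card := by
  obtain ⟨m, F, hF, hne⟩ := h
  obtain ⟨e, hF⟩ := hF.rep
  obtain ⟨a, b, ha, hb, h1, -⟩ := hF.disp
  have h2 := h1 0
  rw [zero_add] at h2
  have h3 := coord_lip hF.1 m
  rw [h2] at h3 hne
  simp only [tr, add_sub_cancel_left] at h3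
  rw [hF.2.card]
  by_cases h4 : a = 0
  · have h5 : b ≠ 0 := by rintro rfl; subst h4; exact hne (tr_zero _)
    have := Int.le_of_dvd (abs_pos.2 h5) ((dvd_abs _ _).2 hb)
    omega
  · have := Int.le_of_dvd (abs_pos.2 h4) ((dvd_abs _ _).2 ha)
    omega

theorem hp_coord {u v : V ℤ} (h : v.1 < u.1) : hp (1 - Real.sqrt 3 * I) (pos u - pos v) := by
  unfold hp
  have h3 := sq3
  have : (0 : ℤ) < (cX u - cX v) - 3 * (cY u - cY v) := by
    simp only [cX, cY]; split_ifs <;> omega
  have h4 : (0 : ℝ) < ((cX u : ℝ) - cX v) - 3 * (cY u - cY v) := by exact_mod_cast this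
  have h5 : ((cY u : ℝ) * Real.sqrt 3 - cY v * Real.sqrt 3) * Real.sqrt 3 = 3 * (cY u - cY v) := by
    linear_combination ((cY u : ℝ) - cY v) * h3
  simp [pos_re, pos_im]
  linarith

theorem Surrounds.ray [Fact (1 < L)] (h : Surrounds L c) :
    ∃ (t : ℕ) (b : Bool), t ≤ 2 * c.card + 1 ∧ On (proj L (t, 0, b)) c := by
  obtain ⟨m, F, hF, h0, ho, hw⟩ := h
  obtain ⟨e, hF⟩ := hF.rep
  obtain ⟨k, rfl, hc⟩ := hF.closed h0
  rw [hF.2.card]
  by_contra hn
  push Not at hn
  have av : ∀ (t : ℕ) (b : Bool), t ≤ 2 * (k + 3) + 1 → ∀ s, F s ≠ ((t : ℤ), 0, b) := by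
    intro t b ht s hs
    exact hn t b ht ((hF.2.on _).2 ⟨s, congrArg (proj L) hs.symm⟩)
  have w : ∀ t : ℕ, t ≤ 2 * (k + 3) + 1 →
      var (pos (t, 0, false)) F 0 (k + 3) = var (pos org) F 0 (k + 3) := by
    intro t
    induction t with
    | zero => intro _; rfl
    | succ t ih =>
      intro ht
      rw [← ih (by omega)]
      have a1 := hc.wind_nb (p := (t, 0, false)) (q := (t, 0, true)) (ε := 0) (by simp [nb])
        (av t false (by omega)) (av t true (by omega))
      have a2 := hc.wind_nb (p := (t, 0, true)) (q := ((t + 1 : ℕ), 0, false)) (ε := 1)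
        (by simp [nb]) (av t true (by omega)) (av (t + 1) false ht)
      rw [a2, a1]
  have bd : ∀ s, |(F s).1 - (F 0).1| ≤ k + 3 := by
    intro s
    have hper : Function.Periodic F ((k + 3 : ℕ) : ℤ) := hF.per h0
    have a1 := Int.emod_nonneg s (by omega : ((k + 3 : ℕ) : ℤ) ≠ 0)
    have a2 := Int.emod_lt_of_pos s (by omega : (0 : ℤ) < ((k + 3 : ℕ) : ℤ))
    have h1 : F s = F (s % ((k + 3 : ℕ) : ℤ)) := by
      conv_lhs => rw [← Int.emod_add_mul_ediv s ((k + 3 : ℕ) : ℤ), mul_comm]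
      exact (hper.int_mul _) _
    have := (coord_lip hF.1 (s % ((k + 3 : ℕ) : ℤ)).toNat).1
    rw [Int.toNat_of_nonneg a1, ← h1] at this
    omega
  apply hw
  by_cases h1 : (k + 3 : ℤ) < (F 0).1
  · exact hc.wind_hp fun s => hp_coord (by have := abs_le.1 (bd s); simp only [org]; omega)
  · rw [← w _ le_rfl]
    apply hc.wind_hp (d := -(1 - Real.sqrt 3 * I))
    intro s
    have := hp_neg (hp_coord (u := (((2 * (k + 3) + 1 : ℕ) : ℤ), 0, false)) (v := F s)
      (by have := abs_le.1 (bd s); push_cast; omega))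
    rwa [neg_sub (pos _)] at this

end reps

end Pool.Agent.Lib.MP_4960b8_pr
end
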